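import Pool.Agent.W418.WR.Par

/-!
# The norm form as a parameter
-/

set_option autoImplicit false
set_option linter.unusedVariables false
set_option linter.unusedSectionVars false

universe u v

namespace Pool.Agent.W418.WR

open IsLocalRing LU2 Polynomial

section

variable {E F : Type u} [Field E] [Field F] [Algebra E F] (A : Subring F) (R : Subring E)

/-- The elements of `E` in `A`. -/
abbrev AE : Subring E := A.comap (algebraMap E F)

/-- The base ring. -/
def B0 : Subring F := lo A (R.map (algebraMap E F))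

variable {A R}

lemma loc_AE (hA : Loc A) : Loc (AE (E := E) A) := by
  intro a ha
  rcases hA _ ha with ⟨h1, h2⟩ | ⟨h1, h2⟩
  · left
    refine ⟨fun h => h1 (by rw [h, map_zero]), ?_⟩
    change algebraMap E F a⁻¹ ∈ A
    rw [map_inv₀]
    exact h2
  · right
    rw [← map_one (algebraMap E F), ← map_sub] at h1 h2
    refine ⟨fun h => h1 (by rw [h, map_zero]), ?_⟩
    change algebraMap E F (1 - a)⁻¹ ∈ A
    rw [map_inv₀]
    exact h2

lemma nu_AE (e : E) : NU (AE (E := E) A) e ↔ NU A (algebraMap E F e) := by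
  unfold NU
  rw [Ne, Ne, map_eq_zero, ← map_inv₀]
  exact Iff.rfl

lemma mem_B0 {z : F} : z ∈ B0 A R ↔ ∃ e ∈ lo (AE (E := E) A) R, algebraMap E F e = z := by
  unfold B0
  rw [lo_map (algebraMap E F) (A' := AE (E := E) A) (fun e => Iff.rfl)]
  exact Iff.rfl

variable (hRA : ∀ r ∈ R, algebraMap E F r ∈ A)

include hRA

lemma map_le : R.map (algebraMap E F) ≤ A := by
  rintro _ ⟨r, hr, rfl⟩
  exact hRA r hr

lemma B0_le : B0 A R ≤ A := lo_le (map_le hRA)

lemma lo_B0 : lo A (B0 A R) = B0 A R := lo_eq (map_le hRA) (le_lo _ _) le_rfl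

lemma alg_mem_B0 {r : E} (hr : r ∈ lo (AE (E := E) A) R) : algebraMap E F r ∈ B0 A R :=
  mem_B0.2 ⟨r, hr, rfl⟩

omit hRA in
lemma trans_sub {S : Subring F} {a α : F} (hα : α ∈ lo A S)
    (htr : ∀ g : (lo A S)[X], eval₂ (lo A S).subtype a g = 0 → g = 0) :
    ∀ g : (lo A S)[X], eval₂ (lo A S).subtype (a - α) g = 0 → g = 0 := by
  intro g hg
  have h1 : eval₂ (lo A S).subtype a (g.comp (X - C ⟨α, hα⟩)) = 0 := by
    rw [eval₂_comp, eval₂_sub, eval₂_X, eval₂_C]
    exact hg
  have h2 := htr _ h1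
  have h3 : (g.comp (X - C ⟨α, hα⟩)).comp (X + C ⟨α, hα⟩) = g := by
    rw [comp_assoc, sub_comp, X_comp, C_comp, add_sub_cancel_right, comp_X]
  rw [← h3, h2, zero_comp]

/-- The norm of `a + θ`, where `θ` generates the maximal order, is a parameter. -/
theorem par (hA : Loc A) [IsDedekindDomain R]
    (hfr : ∀ z : E, ∃ a ∈ R, ∃ b ∈ R, b ≠ 0 ∧ z = a * b⁻¹) {t m : E} (ht : t ∈ R) (hm : m ∈ R)
    (hdisc : t ^ 2 - 4 * m ≠ 0)
    (hram : ∀ α ϖ c₁ c₂ : E, α ∈ lo (AE A) R → ϖ ∈ lo (AE A) R → c₁ ∈ lo (AE A) R →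
      c₂ ∈ lo (AE A) R → ϖ ≠ 0 → ϖ⁻¹ ∉ AE (E := E) A → 2 * α + t = c₁ * ϖ →
      α ^ 2 + t * α + m = c₂ * ϖ ^ 2 → False)
    (hres : NU (AE (E := E) A) 2 → ∀ r ∈ R, ∃ ρ ∈ R, NU (AE (E := E) A) (ρ ^ 2 - r))
    {a : F} (ha : a ∈ A)
    (htr : ∀ g : (lo A (B0 A R))[X], eval₂ (lo A (B0 A R)).subtype a g = 0 → g = 0) :
    RegP A (lo A (Subring.closure (insert a (B0 A R : Set F))))
      (fun _ : Unit => a ^ 2 + algebraMap E F t * a + algebraMap E F m) := by
  classical
  have hA' := loc_AE (E := E) hA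
  have hRA' : R ≤ AE (E := E) A := fun r hr => hRA r hr
  have hBA := B0_le hRA
  obtain ⟨hN, hcmp, ϖ, hϖ, hdiv⟩ := ded_base (AE (E := E) A) hA' R hRA' hfr
  have hreg : RegP A (lo A (B0 A R)) (fun _ : Unit => algebraMap E F ϖ) := by
    rw [lo_B0 hRA]
    exact hϖ.map (algebraMap E F) (fun e => Iff.rfl)
  have hlo : ∀ e : E, e ∈ lo (AE (E := E) A) R → algebraMap E F e ∈ lo A (B0 A R) := fun e he =>
    le_lo _ _ (alg_mem_B0 hRA he)
  have htP : t ∈ lo (AE (E := E) A) R := le_lo _ _ ht
  have hmP : m ∈ lo (AE (E := E) A) R := le_lo _ _ hm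
  have ha0 : a ≠ 0 := by
    intro h
    have h1 := htr X (by rw [eval₂_X, h])
    exact X_ne_zero h1
  let G : (lo A (B0 A R))[X] := X ^ 2 + C ⟨_, hlo t htP⟩ * X + C ⟨_, hlo m hmP⟩
  have hGe : ∀ z : F, eval₂ (lo A (B0 A R)).subtype z G =
      z ^ 2 + algebraMap E F t * z + algebraMap E F m := by
    intro z
    simp only [G, eval₂_add, eval₂_mul, eval₂_pow, eval₂_X, eval₂_C]
    rfl
  have hGd : eval₂ (lo A (B0 A R)).subtype a (derivative G) = 2 * a + algebraMap E F t := by
    simp only [G, derivative_add, derivative_X_pow, derivative_mul, derivative_C, derivative_X,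
      zero_mul, zero_add, mul_one, add_zero, eval₂_add, eval₂_mul, eval₂_C, eval₂_X, Nat.cast_ofNat,
      Nat.add_one_sub_one, pow_one]
    rw [map_ofNat]
    rfl
  have hG0 : G ≠ 0 := by
    intro h
    have h1 := congrArg (fun p => coeff p 2) h
    simp only [G, coeff_add, coeff_X_pow, coeff_C_mul, coeff_X, coeff_C, coeff_zero] at h1
    norm_num at h1
  have hGa : a ^ 2 + algebraMap E F t * a + algebraMap E F m ≠ 0 := by
    rw [← hGe]
    exact fun h => hG0 (htr G h)
  by_cases hcase : NU A (a ^ 2 + algebraMap E F t * a + algebraMap E F m) ∧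
      NU A (2 * a + algebraMap E F t)
  swap
  · have h1 := par_unr hA hBA hreg ha ha0 htr G (by rw [hGe]; exact hGa) (by
      rw [hGe, hGd]
      exact fun h2 h3 => hcase ⟨h2, h3⟩)
    simpa only [hGe] using h1
  · obtain ⟨h1, h2⟩ := hcase
    -- the discriminant
    have h3 : NU (AE (E := E) A) (t ^ 2 - 4 * m) := by
      rw [nu_AE]
      have h4 : algebraMap E F (t ^ 2 - 4 * m) = (2 * a + algebraMap E F t) *
          (2 * a + algebraMap E F t) - 4 * (a ^ 2 + algebraMap E F t * a + algebraMap E F m) := by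
        rw [map_sub, map_mul, map_pow, map_ofNat]
        ring
      rw [h4]
      refine NU.sub hA (NU.mul_left hA h2.1 h2) (NU.mul_left hA ?_ h1)
      exact ofNat_mem A 4
    have hdP : t ^ 2 - 4 * m ∈ lo (AE (E := E) A) R :=
      Subring.sub_mem _ (Subring.pow_mem _ htP 2) (Subring.mul_mem _ (ofNat_mem _ 4) hmP)
    obtain ⟨hϖu, -⟩ := hdiv _ hdP hdisc (fun h => h3.2 ⟨hdisc, h⟩)
    have hϖ0 : ϖ ≠ 0 := hϖ.ne ()
    have hϖP : ϖ ∈ lo (AE (E := E) A) R := hϖ.mem ()
    have hdiv' : ∀ z ∈ lo (AE (E := E) A) R, NU (AE (E := E) A) z →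
        ∃ c ∈ lo (AE (E := E) A) R, z = c * ϖ := by
      intro z hz hz1
      by_cases hz0 : z = 0
      · exact ⟨0, Subring.zero_mem _, by rw [hz0, zero_mul]⟩
      · exact (hdiv z hz hz0 fun h => hz1.2 ⟨hz0, h⟩).2
    -- the centre
    obtain ⟨α, hα, hα1⟩ : ∃ α ∈ lo (AE (E := E) A) R, NU A (a - algebraMap E F α) := by
      by_cases h2u : NU (AE (E := E) A) 2
      · obtain ⟨ρ, hρ, hρ1⟩ := hres h2u (-m) (R.neg_mem hm)
        refine ⟨ρ, le_lo _ _ hρ, ?_⟩
        have h2F : NU A 2 := by
          have := (nu_AE (A := A) (2 : E)).1 h2u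
          rwa [map_ofNat] at this
        have hρA : algebraMap E F ρ ∈ A := hRA ρ hρ
        have hmA : algebraMap E F m ∈ A := hRA m hm
        have htA : algebraMap E F t ∈ A := hRA t ht
        have h4 : NU A (algebraMap E F t) := by
          have h5 : algebraMap E F t = (2 * a + algebraMap E F t) - 2 * a := by ring
          rw [h5]
          exact NU.sub hA h2 (NU.mul_right hA ha h2F)
        refine NU.of_sq hA (A.sub_mem ha hρA) ?_
        have h5 : (a - algebraMap E F ρ) ^ 2 =
            (a ^ 2 + algebraMap E F t * a + algebraMap E F m) - algebraMap E F t * a -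
            2 * (a * algebraMap E F ρ) + algebraMap E F (ρ ^ 2 - -m) -
            2 * algebraMap E F m := by
          rw [map_sub, map_neg, map_pow]
          ring
        rw [h5]
        refine NU.sub hA (NU.add hA (NU.sub hA (NU.sub hA h1 (NU.mul_right hA ha h4))
          (NU.mul_right hA (A.mul_mem ha hρA) h2F)) ?_) (NU.mul_right hA hmA h2F)
        exact (nu_AE _).1 hρ1
      · have h4 : (2 : E) ∈ AE (E := E) A := ofNat_mem _ 2
        have h5 : (2 : E) ≠ 0 ∧ (2 : E)⁻¹ ∈ AE (E := E) A := by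
          by_contra h
          exact h2u ⟨h4, h⟩
        have h6 : (2 : E)⁻¹ ∈ lo (AE (E := E) A) R :=
          inv_mem_lo hRA' (ofNat_mem _ 2) h5.1 h5.2
        refine ⟨-(t * 2⁻¹), Subring.neg_mem _ (Subring.mul_mem _ htP h6), ?_⟩
        have h7 : a - algebraMap E F (-(t * 2⁻¹)) =
            algebraMap E F 2⁻¹ * (2 * a + algebraMap E F t) := by
          have h8 : (2 : F) ≠ 0 := by
            rw [← map_ofNat (algebraMap E F) 2]
            exact (_root_.map_ne_zero _).2 h5.1
          rw [map_neg, map_mul, map_inv₀, map_ofNat]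
          field_simp
          ring
        rw [h7]
        exact NU.mul_left hA h5.2 h2
    have hαA : algebraMap E F α ∈ A := lo_le hRA' hα
    have haα0 : a - algebraMap E F α ≠ 0 := by
      intro h
      have h4 := trans_sub (hlo α hα) htr X (by rw [eval₂_X, h])
      exact X_ne_zero h4
    have hwNU : NU (AE (E := E) A) (2 * α + t) := by
      rw [nu_AE]
      have h4 : algebraMap E F (2 * α + t) = (2 * a + algebraMap E F t) -
          2 * (a - algebraMap E F α) := by
        rw [map_add, map_mul, map_ofNat]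
        ring
      rw [h4]
      exact NU.sub hA h2 (NU.mul_left hA (ofNat_mem A 2) hα1)
    have hwP : 2 * α + t ∈ lo (AE (E := E) A) R :=
      Subring.add_mem _ (Subring.mul_mem _ (ofNat_mem _ 2) hα) htP
    have hgNU : NU (AE (E := E) A) (α ^ 2 + t * α + m) := by
      rw [nu_AE]
      have h4 : algebraMap E F (α ^ 2 + t * α + m) =
          (a ^ 2 + algebraMap E F t * a + algebraMap E F m) -
          (a + algebraMap E F α + algebraMap E F t) * (a - algebraMap E F α) := by
        rw [map_add, map_add, map_mul, map_pow]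
        ring
      rw [h4]
      exact NU.sub hA h1 (NU.mul_left hA (A.add_mem (A.add_mem ha hαA) (hRA t ht)) hα1)
    have hgP : α ^ 2 + t * α + m ∈ lo (AE (E := E) A) R :=
      Subring.add_mem _ (Subring.add_mem _ (Subring.pow_mem _ hα 2) (Subring.mul_mem _ htP hα)) hmP
    obtain ⟨c₁, hc₁, hc₁'⟩ := hdiv' _ hwP hwNU
    obtain ⟨u, hu, hu'⟩ := hdiv' _ hgP hgNU
    have huNU : ¬ NU (AE (E := E) A) u := by
      intro h
      obtain ⟨c₂, hc₂, hc₂'⟩ := hdiv' u hu h
      refine hram α ϖ c₁ c₂ hα hϖP hc₁ hc₂ hϖ0 hϖu hc₁' ?_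
      rw [hu', hc₂']
      ring
    have h4 := par_ram hA hBA hreg (ϖ := algebraMap E F ϖ) (by
        rw [← map_inv₀]
        exact hϖu) haα0 hα1 (trans_sub (hlo α hα) htr) (u := algebraMap E F u)
        (w := algebraMap E F (2 * α + t)) (hlo u hu) (by rw [← nu_AE]; exact huNU)
        (hlo _ hwP) ((nu_AE _).1 hwNU)
    have h5 : Subring.closure (insert (a - algebraMap E F α) (B0 A R : Set F)) =
        Subring.closure (insert a (B0 A R : Set F)) := by
      have hαB : algebraMap E F α ∈ B0 A R := alg_mem_B0 hRA hα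
      apply le_antisymm
      · rw [Subring.closure_le]
        rintro z (rfl | hz)
        · exact Subring.sub_mem _ (Subring.subset_closure (Set.mem_insert _ _))
            (Subring.subset_closure (Set.mem_insert_of_mem _ hαB))
        · exact Subring.subset_closure (Set.mem_insert_of_mem _ hz)
      · rw [Subring.closure_le]
        rintro z (rfl | hz)
        · have h6 : z = (z - algebraMap E F α) + algebraMap E F α := by ring
          have h7 := Subring.add_mem _ (Subring.subset_closure (Set.mem_insert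
            (z - algebraMap E F α) (B0 A R : Set F)))
            (Subring.subset_closure (Set.mem_insert_of_mem (z - algebraMap E F α) hαB))
          rw [← h6] at h7
          exact h7
        · exact Subring.subset_closure (Set.mem_insert_of_mem _ hz)
    rw [h5] at h4
    have h6 : (a - algebraMap E F α) ^ 2 + algebraMap E F (2 * α + t) * (a - algebraMap E F α) +
        algebraMap E F u * algebraMap E F ϖ =
        a ^ 2 + algebraMap E F t * a + algebraMap E F m := by
      rw [← map_mul, ← hu', map_add, map_add, map_add, map_mul, map_mul, map_pow, map_ofNat]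
      ring
    rw [h6] at h4
    exact h4

end

end Pool.Agent.W418.WR
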