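import Pool.Agent.W418.WR.Mod

/-!
# The charts are regular
-/

set_option autoImplicit false
set_option linter.unusedVariables false
set_option linter.unusedSectionVars false

universe u v

namespace Pool.Agent.W418.WR

open IsLocalRing LU2

section coords

variable {E F : Type} [Field E] [Field F] [Algebra E F] {I : Type} {x y : I → F} {d a₀ b₀ : E}
  (hb₀ : b₀ ≠ 0)

/-- The first coordinates. -/
def al (x y : I → F) (a₀ b₀ : E) (k : I) : F :=
  x k - algebraMap E F a₀ * (algebraMap E F b₀)⁻¹ * y k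

/-- The second coordinates. -/
def be (y : I → F) (b₀ : E) (k : I) : F := y k * (algebraMap E F b₀)⁻¹

include hb₀

lemma Ac_eq (k l : I) : Ac (algebraMap E F (2 * a₀)) (algebraMap E F (a₀ ^ 2 - d * b₀ ^ 2))
    (al x y a₀ b₀) (be y b₀) k l = Pc (algebraMap E F d) x y k l -
      algebraMap E F a₀ * (algebraMap E F b₀)⁻¹ * Qc x y k l := by
  have h1 : algebraMap E F b₀ ≠ 0 := (map_ne_zero _).2 hb₀
  unfold Ac al be Pc Qc
  rw [map_mul, map_sub, map_mul, map_pow, map_pow, map_ofNat]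
  field_simp
  ring

lemma Bc_eq (k l : I) : Bc (al x y a₀ b₀) (be y b₀) k l =
    (algebraMap E F b₀)⁻¹ * Qc x y k l := by
  have h1 : algebraMap E F b₀ ≠ 0 := (map_ne_zero _).2 hb₀
  unfold Bc al be Qc
  field_simp
  ring

lemma adjoin_albe (hxy : IntermediateField.adjoin E (Set.range x ∪ Set.range y) = ⊤) :
    IntermediateField.adjoin E (Set.range (al x y a₀ b₀) ∪ Set.range (be y b₀)) = ⊤ := by
  have h1 : algebraMap E F b₀ ≠ 0 := (map_ne_zero _).2 hb₀
  set L := IntermediateField.adjoin E (Set.range (al x y a₀ b₀) ∪ Set.range (be y b₀)) with hL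
  have hal : ∀ k, al x y a₀ b₀ k ∈ L := fun k =>
    IntermediateField.subset_adjoin E _ (Or.inl ⟨k, rfl⟩)
  have hbe : ∀ k, be y b₀ k ∈ L := fun k =>
    IntermediateField.subset_adjoin E _ (Or.inr ⟨k, rfl⟩)
  have hy : ∀ k, y k ∈ L := by
    intro k
    have h2 : y k = be y b₀ k * algebraMap E F b₀ := by
      unfold be
      rw [mul_assoc, inv_mul_cancel₀ h1, mul_one]
    rw [h2]
    exact L.mul_mem (hbe k) (L.algebraMap_mem _)
  rw [eq_top_iff, ← hxy, IntermediateField.adjoin_le_iff]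
  rintro z (⟨k, rfl⟩ | ⟨k, rfl⟩)
  · have h2 : x k = al x y a₀ b₀ k + algebraMap E F a₀ * (algebraMap E F b₀)⁻¹ * y k := by
      unfold al
      ring
    rw [h2]
    exact L.add_mem (hal k) (L.mul_mem (L.mul_mem (L.algebraMap_mem _)
      (L.inv_mem (L.algebraMap_mem _))) (hy k))
  · exact hy k

end coords

section chart

variable {O E F : Type} [CommRing O] [IsDedekindDomain O] [Field E] [Algebra O E]
  [IsFractionRing O E] [Field F] [Algebra E F] [Algebra O F] [IsScalarTower O E F]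
  {I : Type} [Fintype I] [DecidableEq I]
  (hfin : ∀ 𝔭 : Ideal O, 𝔭.IsPrime → 𝔭 ≠ ⊥ → Finite (O ⧸ 𝔭)) (h2 : (2 : E) ≠ 0)
  {d : E} (hd : d ≠ 0) {x y : I → F}
  (hN : ∀ i, Pc (algebraMap E F d) x y i i ≠ 0)
  (hxy : IntermediateField.adjoin E (Set.range x ∪ Set.range y) = ⊤)
  (hF : ∀ y : I × Bool → F, IntermediateField.adjoin E (Set.range y) = ⊤ →
    AlgebraicIndependent E y)

include hfin h2 hd hN hxy hF

theorem chart_regular (f : F) (hf : f ∈ MM O d x y) (hf0 : f ≠ 0) (C : Subalgebra O F)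
    (hC : C = Algebra.adjoin O {w : F | ∃ m ∈ MM O d x y, w = m / f})
    (q : Ideal C) [hq : q.IsPrime] : IsRegularLocalRing (Localization.AtPrime q) := by
  classical
  obtain ⟨A, hA, hCA, hfrac, hreg⟩ := exists_loc (C.val : C →+* F) Subtype.val_injective q
  apply hreg
  have hCA' : ∀ z ∈ C, z ∈ A := fun z hz => hCA ⟨z, hz⟩
  -- the base ring
  let R : Subring E := (algebraMap O E).range
  have hRded : IsDedekindDomain R := range_ded
  have hRA : ∀ r ∈ R, algebraMap E F r ∈ A := by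
    rintro _ ⟨o, rfl⟩
    rw [← IsScalarTower.algebraMap_apply]
    exact hCA' _ (Subalgebra.algebraMap_mem C o)
  have hIC := range_ic (O := O) (E := E)
  have hW := loc_AE (E := E) hA
  have hRW : R ≤ AE (E := E) A := fun r hr => hRA r hr
  obtain ⟨hNoe, hcmp, -⟩ := ded_base (AE (E := E) A) hW R hRW range_frac
  obtain ⟨c₀, ⟨c₀', hc₀'⟩, hc0, hc⟩ : ∃ c₀ ∈ R, c₀ ≠ 0 ∧ c₀ * d ∈ R := by
    obtain ⟨a, ha, b, hb, hb0, hab⟩ := range_frac (O := O) d
    refine ⟨b, hb, hb0, ?_⟩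
    rw [hab, mul_left_comm, mul_inv_cancel₀ hb0, mul_one]
    exact ha
  have hc₀ : c₀ ∈ R := ⟨c₀', hc₀'⟩
  obtain ⟨a₀, b₀, hab, hb0, hmin⟩ := exists_gen hIC hW hRW hcmp hd h2 hc₀ hc hc0
  have hbF : algebraMap E F b₀ ≠ 0 := (map_ne_zero _).2 hb0
  -- the forms
  let t : E := 2 * a₀
  let m : E := a₀ ^ 2 - d * b₀ ^ 2
  have ht : t ∈ R := hab.1
  have hm : m ∈ R := hab.2
  let α : I → F := al x y a₀ b₀
  let β : I → F := be y b₀
  have hAc : ∀ k l, Ac (algebraMap E F t) (algebraMap E F m) α β k l =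
      Pc (algebraMap E F d) x y k l - algebraMap E F a₀ * (algebraMap E F b₀)⁻¹ * Qc x y k l :=
    fun k l => Ac_eq hb0 k l
  have hBc : ∀ k l, Bc α β k l = (algebraMap E F b₀)⁻¹ * Qc x y k l := fun k l => Bc_eq hb0 k l
  obtain ⟨AA, hAA⟩ : ∃ AA : I → I → F, AA = fun k l =>
    Ac (algebraMap E F t) (algebraMap E F m) α β k l := ⟨_, rfl⟩
  obtain ⟨BB, hBB⟩ : ∃ BB : I → I → F, BB = fun k l => Bc α β k l := ⟨_, rfl⟩
  have hAAe : ∀ k l, AA k l = Ac (algebraMap E F t) (algebraMap E F m) α β k l := fun k l => by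
    rw [hAA]
  have hBBe : ∀ k l, BB k l = Bc α β k l := fun k l => by rw [hBB]
  -- the elements of the module
  have hspan : ∀ (Q : F → Prop), Q 0 → (∀ a b, Q a → Q b → Q (a + b)) →
      (∀ r ∈ R, ∀ a, Q a → Q (algebraMap E F r * a)) → (∀ k l, Q (AA k l)) → (∀ k l, Q (BB k l)) →
      ∀ z ∈ MM O d x y, Q z := by
    intro Q h0 hadd hsmul hQA hQB z hz
    unfold MM at hz
    induction hz using Submodule.span_induction with
    | mem z hz =>
      obtain ⟨u, v, huv, k, l, rfl⟩ := hz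
      have h3 : algebraMap E F u * Pc (algebraMap E F d) x y k l + algebraMap E F v * Qc x y k l =
          algebraMap E F u * AA k l + algebraMap E F (u * a₀ + v * b₀) * BB k l := by
        rw [hAAe, hBBe, hAc, hBc, map_add, map_mul, map_mul]
        field_simp
        ring
      rw [h3]
      exact hadd _ _ (hsmul u huv.fst _ (hQA k l)) (hsmul _ (huv _ _ hab) _ (hQB k l))
    | zero => exact h0
    | add a b _ _ ha hb => exact hadd a b ha hb
    | smul o a _ ha =>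
      rw [Algebra.smul_def, IsScalarTower.algebraMap_apply O E F]
      exact hsmul _ ⟨o, rfl⟩ _ ha
  -- the generators
  have hdenA : ∀ k l, ∃ s : E, s ≠ 0 ∧ s⁻¹ ∈ AE (E := E) A ∧
      algebraMap E F s * AA k l ∈ MM O d x y := by
    intro k l
    obtain ⟨s, hs, hs0, hsW, h⟩ := denom hRW hIC h2 hd hc₀ hc hc0 1 (-(a₀ * b₀⁻¹)) (by
      intro p q hpq
      have h3 : 1 * p + -(a₀ * b₀⁻¹) * q = p - q * b₀⁻¹ * a₀ := by ring
      rw [h3]
      exact (hmin p q hpq).2)
    refine ⟨s, hs0, hsW, Submodule.subset_span ⟨s, s * -(a₀ * b₀⁻¹), ?_, k, l, ?_⟩⟩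
    · intro p q hpq
      have h3 : s * p + s * -(a₀ * b₀⁻¹) * q = s * (1 * p + -(a₀ * b₀⁻¹) * q) := by ring
      rw [h3]
      exact h p q hpq
    · rw [hAAe, hAc, map_mul, map_neg, map_mul, map_inv₀]
      ring
  have hdenB : ∀ k l, ∃ s : E, s ≠ 0 ∧ s⁻¹ ∈ AE (E := E) A ∧
      algebraMap E F s * BB k l ∈ MM O d x y := by
    intro k l
    obtain ⟨s, hs, hs0, hsW, h⟩ := denom hRW hIC h2 hd hc₀ hc hc0 0 b₀⁻¹ (by
      intro p q hpq
      have h3 : 0 * p + b₀⁻¹ * q = q * b₀⁻¹ := by ring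
      rw [h3]
      exact (hmin p q hpq).1)
    refine ⟨s, hs0, hsW, Submodule.subset_span ⟨0, s * b₀⁻¹, ?_, k, l, ?_⟩⟩
    · intro p q hpq
      have h3 : 0 * p + s * b₀⁻¹ * q = s * (0 * p + b₀⁻¹ * q) := by ring
      rw [h3]
      exact h p q hpq
    · rw [hBBe, hBc, map_mul, map_inv₀, map_zero]
      ring
  have hmul : ∀ z : F, (∃ s : E, s ≠ 0 ∧ s⁻¹ ∈ AE (E := E) A ∧
      algebraMap E F s * z ∈ MM O d x y) → z * f⁻¹ ∈ A := by
    rintro z ⟨s, hs0, hsW, hs⟩
    have hsF : algebraMap E F s ≠ 0 := (map_ne_zero _).2 hs0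
    have h3 : z * f⁻¹ = algebraMap E F s⁻¹ * (algebraMap E F s * z / f) := by
      rw [map_inv₀]
      field_simp
    rw [h3]
    exact A.mul_mem hsW (hCA' _ (by rw [hC]; exact Algebra.subset_adjoin ⟨_, hs, rfl⟩))
  have hAf : ∀ k l, AA k l * f⁻¹ ∈ A := fun k l => hmul _ (hdenA k l)
  have hBf : ∀ k l, BB k l * f⁻¹ ∈ A := fun k l => hmul _ (hdenB k l)
  -- a generator which divides `f`
  have hTA : algebraMap E F t ∈ A := hRA t ht
  have hMA : algebraMap E F m ∈ A := hRA m hm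
  have hunit1 : ∃ k l, ¬ NU A (AA k l * f⁻¹) ∨ ¬ NU A (BB k l * f⁻¹) := by
    by_contra hcon
    push Not at hcon
    have h3 := hspan (fun z => NU A (z * f⁻¹)) (by
        rw [zero_mul]
        exact ⟨A.zero_mem, fun h => h.1 rfl⟩)
      (fun a b ha hb => by
        rw [add_mul]
        exact NU.add hA ha hb)
      (fun r hr a ha => by
        rw [mul_assoc]
        exact NU.mul_left hA (hRA r hr) ha)
      (fun k l => (hcon k l).1) (fun k l => (hcon k l).2) f hf
    refine h3.2 ⟨mul_ne_zero hf0 (inv_ne_zero hf0), ?_⟩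
    rw [mul_inv_cancel₀ hf0, inv_one]
    exact A.one_mem
  -- change of the denominator
  have hchange : ∀ g : F, g * f⁻¹ ∈ A → ¬ NU A (g * f⁻¹) → g ≠ 0 ∧ f * g⁻¹ ∈ A := by
    intro g hg hgu
    have h3 : g * f⁻¹ ≠ 0 ∧ (g * f⁻¹)⁻¹ ∈ A := by
      by_contra h
      exact hgu ⟨hg, h⟩
    refine ⟨left_ne_zero_of_mul h3.1, ?_⟩
    have h4 := h3.2
    rwa [mul_inv, inv_inv, mul_comm] at h4
  have hgenA : ∀ g : F, g ≠ 0 → g * f⁻¹ ∈ A → f * g⁻¹ ∈ A →
      A ≤ lo A (Subring.closure ((B0 A R : Set F) ∪ {z | ∃ k l, z = AA k l * g⁻¹ ∨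
        z = BB k l * g⁻¹})) := by
    intro g hg0 hgf hfg
    set D := Subring.closure ((B0 A R : Set F) ∪ {z | ∃ k l, z = AA k l * g⁻¹ ∨
        z = BB k l * g⁻¹}) with hD
    have hDA : D ≤ A := by
      rw [hD, Subring.closure_le]
      rintro z (hz | ⟨k, l, rfl | rfl⟩)
      · exact B0_le hRA hz
      · have h3 : AA k l * g⁻¹ = AA k l * f⁻¹ * (f * g⁻¹) := by field_simp
        rw [h3]
        exact A.mul_mem (hAf k l) hfg
      · have h3 : BB k l * g⁻¹ = BB k l * f⁻¹ * (f * g⁻¹) := by field_simp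
        rw [h3]
        exact A.mul_mem (hBf k l) hfg
    have hBD : B0 A R ≤ D := fun z hz => Subring.subset_closure (Or.inl hz)
    have hMD : ∀ z ∈ MM O d x y, z * g⁻¹ ∈ D := hspan (fun z => z * g⁻¹ ∈ D) (by
        rw [zero_mul]
        exact D.zero_mem)
      (fun a b ha hb => by
        rw [add_mul]
        exact D.add_mem ha hb)
      (fun r hr a ha => by
        rw [mul_assoc]
        exact D.mul_mem (hBD (alg_mem_B0 hRA (le_lo _ _ hr))) ha)
      (fun k l => Subring.subset_closure (Or.inr ⟨k, l, Or.inl rfl⟩))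
      (fun k l => Subring.subset_closure (Or.inr ⟨k, l, Or.inr rfl⟩))
    have hgf' : g * f⁻¹ ∈ lo A D := by
      have h3 := inv_mem_lo hDA (le_lo A D (hMD f hf)) (mul_ne_zero hf0 (inv_ne_zero hg0)) (by
        rw [mul_inv, inv_inv, mul_comm]
        exact hgf)
      rwa [mul_inv, inv_inv, mul_comm] at h3
    have hCD : ∀ z ∈ C, z ∈ lo A D := by
      intro z hz
      rw [hC] at hz
      induction hz using Algebra.adjoin_induction with
      | mem z hz =>
        obtain ⟨n, hn, rfl⟩ := hz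
        have h3 : n / f = n * g⁻¹ * (g * f⁻¹) := by field_simp
        rw [h3]
        exact (lo A D).mul_mem (le_lo A D (hMD n hn)) hgf'
      | algebraMap o =>
        rw [IsScalarTower.algebraMap_apply O E F]
        exact le_lo A D (hBD (alg_mem_B0 hRA (le_lo _ _ ⟨o, rfl⟩)))
      | add a b _ _ ha hb => exact (lo A D).add_mem ha hb
      | mul a b _ _ ha hb => exact (lo A D).mul_mem ha hb
    intro z hz
    obtain ⟨a, b, hb0, hbA, rfl⟩ := hfrac z hz
    exact (lo A D).mul_mem (hCD _ a.2) (inv_mem_lo hDA (hCD _ b.2) hb0 hbA)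
  have hmemg : ∀ g : F, g ≠ 0 → f * g⁻¹ ∈ A → ∀ k l, AA k l * g⁻¹ ∈ A ∧ BB k l * g⁻¹ ∈ A := by
    intro g hg0 hfg k l
    have h3 : ∀ z, z * g⁻¹ = z * f⁻¹ * (f * g⁻¹) := by
      intro z
      field_simp
    rw [h3, h3 (BB k l)]
    exact ⟨A.mul_mem (hAf k l) hfg, A.mul_mem (hBf k l) hfg⟩
  have hαβ := adjoin_albe (a₀ := a₀) hb0 hxy
  by_cases hcase : ∃ i, ¬ NU A (AA i i * f⁻¹)
  · obtain ⟨i, hi⟩ := hcase
    obtain ⟨hg0, hfg⟩ := hchange _ (hAf i i) hi
    have h4 := hgenA _ hg0 (hAf i i) hfg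
    have h5 := hmemg _ hg0 hfg
    simp only [hAA, hBB] at h4 h5 hg0
    exact local_one hA hRA hF t m ht hm α β hαβ range_frac i hg0 h5 h4
  · push Not at hcase
    obtain ⟨k, l, hkl⟩ : ∃ k l, ¬ NU A (BB k l * f⁻¹) := by
      obtain ⟨k, l, h | h⟩ := hunit1
      · refine ⟨k, l, fun h' => h ?_⟩
        refine NU.of_sq hA (hAf k l) ?_
        have h3 : (AA k l * f⁻¹) ^ 2 = (AA k k * f⁻¹) * (AA l l * f⁻¹) -
            (algebraMap E F t * (AA k l * f⁻¹) + algebraMap E F m * (BB k l * f⁻¹)) *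
              (BB k l * f⁻¹) := by
          simp only [hAA, hBB]
          unfold Ac Bc
          ring
        rw [h3]
        exact NU.sub hA (NU.mul_left hA (hAf k k) (hcase l)) (NU.mul_left hA
          (A.add_mem (A.mul_mem hTA (hAf k l)) (A.mul_mem hMA (hBf k l))) h')
      · exact ⟨k, l, h⟩
    obtain ⟨hg0, hfg⟩ := hchange _ (hBf k l) hkl
    have hne : k ≠ l := by
      rintro rfl
      apply hg0
      simp only [hBB]
      unfold Bc
      ring
    have h4 := hgenA _ hg0 (hBf k l) hfg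
    have h5 := hmemg _ hg0 hfg
    have h6 : AA k k ≠ 0 := by
      simp only [hAA]
      rw [hAc]
      have h7 : Qc x y k k = 0 := by
        unfold Qc
        ring
      rw [h7, mul_zero, sub_zero]
      exact hN k
    have h7 : NU A (AA k k * (BB k l)⁻¹) := by
      have h8 : AA k k * (BB k l)⁻¹ = (f * (BB k l)⁻¹) * (AA k k * f⁻¹) := by field_simp
      rw [h8]
      exact NU.mul_left hA hfg (hcase k)
    simp only [hAA, hBB] at h4 h5 hg0 h6 h7
    have hF0 : Function.Injective (algebraMap O E) := IsFractionRing.injective O E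
    refine local_two hA hRA hF t m ht hm α β hαβ range_frac ?_ ?_ ?_ k l hne hg0 h6 h7 h5 h4
    · have h8 : t ^ 2 - 4 * m = 2 * 2 * (d * b₀ ^ 2) := by
        simp only [t, m]
        ring
      rw [h8]
      exact mul_ne_zero (mul_ne_zero h2 h2) (mul_ne_zero hd (pow_ne_zero 2 hb0))
    · intro α' ϖ c₁ c₂ _ _ hc₁ hc₂ hϖ0 hϖ h8 h9
      exact ram_aux hIC hW hRW hb0 (fun p q hpq => (hmin p q hpq).1) α' ϖ c₁ c₂ hc₁ hc₂ hϖ0 hϖ
        h8 h9
    · intro h8
      exact res_square hF0 hfin hW hRW h2 h8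

end chart

end Pool.Agent.W418.WR
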