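import Pool.Agent.W418.LU2.Ded

/-!
# Local rings of Dedekind rings in fields
-/

set_option autoImplicit false
set_option linter.unusedVariables false
set_option linter.unusedSectionVars false

universe u v

namespace Pool.Agent.W418.WR

open IsLocalRing LU2

variable {E : Type u} [Field E]

/-- The nonunits of `W`. -/
def NU (W : Subring E) (z : E) : Prop := z ∈ W ∧ ¬ (z ≠ 0 ∧ z⁻¹ ∈ W)

section nu

variable {W : Subring E} (hW : Loc W)

lemma isUnit_iff' (x : W) : IsUnit x ↔ (x : E) ≠ 0 ∧ (x : E)⁻¹ ∈ W := by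
  constructor
  · intro hx
    obtain ⟨y, hy⟩ := isUnit_iff_exists_inv.1 hx
    have h1 : (x : E) * y = 1 := congrArg Subtype.val hy
    refine ⟨left_ne_zero_of_mul_eq_one h1, ?_⟩
    rw [← eq_inv_of_mul_eq_one_right h1]
    exact y.2
  · rintro ⟨h0, h1⟩
    exact isUnit_iff_exists_inv.2 ⟨⟨_, h1⟩, Subtype.ext (mul_inv_cancel₀ h0)⟩

include hW

lemma isLocalRing_of_loc : IsLocalRing W := by
  refine IsLocalRing.of_isUnit_or_isUnit_one_sub_self fun a => ?_
  rcases hW a a.2 with h | h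
  · exact Or.inl ((isUnit_iff' a).2 h)
  · exact Or.inr ((isUnit_iff' (1 - a)).2 h)

lemma nu_iff (z : W) : NU W z ↔ z ∈ @maximalIdeal W _ (isLocalRing_of_loc hW) := by
  have := isLocalRing_of_loc hW
  rw [mem_maximalIdeal, mem_nonunits_iff, isUnit_iff']
  exact ⟨fun h => h.2, fun h => ⟨z.2, h⟩⟩

lemma NU.add {x y : E} (hx : NU W x) (hy : NU W y) : NU W (x + y) := by
  have := isLocalRing_of_loc hW
  exact (nu_iff hW (⟨x, hx.1⟩ + ⟨y, hy.1⟩)).2
    (Ideal.add_mem _ ((nu_iff hW ⟨x, hx.1⟩).1 hx) ((nu_iff hW ⟨y, hy.1⟩).1 hy))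

lemma NU.mul_left {x y : E} (hx : x ∈ W) (hy : NU W y) : NU W (x * y) := by
  have := isLocalRing_of_loc hW
  exact (nu_iff hW (⟨x, hx⟩ * ⟨y, hy.1⟩)).2
    (Ideal.mul_mem_left _ _ ((nu_iff hW ⟨y, hy.1⟩).1 hy))

lemma NU.mul_right {x y : E} (hx : x ∈ W) (hy : NU W y) : NU W (y * x) := by
  rw [mul_comm]
  exact NU.mul_left hW hx hy

lemma NU.neg {y : E} (hy : NU W y) : NU W (-y) := by
  have h1 := NU.mul_left hW (W.neg_mem W.one_mem) hy
  rwa [neg_one_mul] at h1

lemma NU.sub {x y : E} (hx : NU W x) (hy : NU W y) : NU W (x - y) := by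
  rw [sub_eq_add_neg]
  exact hx.add hW (hy.neg hW)

lemma NU.of_sq {x : E} (hx : x ∈ W) (h : NU W (x ^ 2)) : NU W x := by
  refine ⟨hx, fun h1 => h.2 ⟨pow_ne_zero 2 h1.1, ?_⟩⟩
  rw [← inv_pow]
  exact W.pow_mem h1.2 2

end nu

/-- The local rings of Dedekind rings. -/
theorem ded_base (W : Subring E) (hW : Loc W) (R : Subring E) [IsDedekindDomain R]
    (hRW : R ≤ W) (hfr : ∀ z : E, ∃ a ∈ R, ∃ b ∈ R, b ≠ 0 ∧ z = a * b⁻¹) :
    IsNoetherianRing (lo W R) ∧ (∀ z : E, z ∈ lo W R ∨ z⁻¹ ∈ lo W R) ∧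
    ∃ ϖ : E, RegP W (lo W R) (fun _ : Unit => ϖ) ∧
      ∀ z ∈ lo W R, z ≠ 0 → z⁻¹ ∉ W → ϖ⁻¹ ∉ W ∧ ∃ c ∈ lo W R, z = c * ϖ := by
  classical
  set P := lo W R with hP
  have hRP : R ≤ P := le_lo _ R
  let _ : Algebra R P := (Subring.inclusion hRP).toAlgebra
  have halg : ∀ a : R, ((algebraMap R P a : P) : E) = a := fun a => rfl
  have hloc : IsLocalRing P := isLocalRing_lo hW hRW
  let 𝔭 : Ideal R := (maximalIdeal P).comap (algebraMap R P)
  have hu : ∀ a : R, a ∉ 𝔭 ↔ IsUnit (algebraMap R P a) := by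
    intro a
    change ¬ (algebraMap R P a ∈ maximalIdeal P) ↔ _
    rw [mem_maximalIdeal, mem_nonunits_iff, not_not]
  have hprime : 𝔭.IsPrime := Ideal.IsPrime.comap _
  have hL : IsLocalization.AtPrime P 𝔭 :=
    { map_units := fun y => (hu y.1).1 y.2
      surj := by
        rintro ⟨z, a, ha, b, hb, hb0, hbW, rfl⟩
        refine ⟨(⟨a, ha⟩, ⟨⟨b, hb⟩, ?_⟩), ?_⟩
        · change (⟨b, hb⟩ : R) ∉ 𝔭
          rw [hu, isUnit_lo_iff hRW]
          exact ⟨hb0, hbW⟩
        · apply Subtype.ext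
          change a * b⁻¹ * b = a
          rw [mul_assoc, inv_mul_cancel₀ hb0, mul_one]
      exists_of_eq := by
        intro a b h
        refine ⟨1, ?_⟩
        have h1 : a = b := Subtype.ext (congrArg (Subtype.val : P → E) h)
        rw [h1] }
  have hD : IsDedekindDomain P := IsLocalization.AtPrime.isDedekindDomain R 𝔭 P
  have hPID : IsPrincipalIdealRing P := by
    apply IsPrincipalIdealRing.of_finite_maximals
    refine (Set.finite_singleton (maximalIdeal P)).subset ?_
    intro I hI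
    exact eq_maximalIdeal hI
  have hreg : IsRegularLocalRing P := inferInstance
  refine ⟨inferInstance, ?_⟩
  obtain ⟨ϖ, hϖ⟩ : ∃ ϖ : P, maximalIdeal P = Ideal.span {ϖ} :=
    ⟨_, ((maximalIdeal P).span_singleton_generator).symm⟩
  by_cases h0 : ϖ = 0
  · -- the field
    have hunit : ∀ z : P, z ≠ 0 → IsUnit z := by
      intro z hz
      by_contra h
      have h1 : z ∈ maximalIdeal P := (mem_maximalIdeal z).2 h
      rw [hϖ, h0, Ideal.mem_span_singleton, zero_dvd_iff] at h1
      exact hz h1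
    have hall : ∀ z : E, z ≠ 0 → z ∈ P ∧ z⁻¹ ∈ P := by
      intro z hz
      obtain ⟨a, ha, b, hb, hb0, rfl⟩ := hfr z
      have ha0 : a ≠ 0 := left_ne_zero_of_mul hz
      have h1 := (isUnit_lo_iff hRW (⟨a, hRP ha⟩ : P)).1
        (hunit _ fun h => ha0 (congrArg Subtype.val h))
      have h2 := (isUnit_lo_iff hRW (⟨b, hRP hb⟩ : P)).1
        (hunit _ fun h => hb0 (congrArg Subtype.val h))
      have h3 := inv_mem_lo hRW (hRP ha) ha0 h1.2
      have h4 := inv_mem_lo hRW (hRP hb) hb0 h2.2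
      refine ⟨P.mul_mem (hRP ha) h4, ?_⟩
      rw [mul_inv, inv_inv]
      exact P.mul_mem h3 (hRP hb)
    refine ⟨?_, 1, ?_, ?_⟩
    · intro z
      by_cases hz : z = 0
      · left; rw [hz]; exact P.zero_mem
      · exact Or.inl (hall z hz).1
    · exact
        { PA := lo_le hRW
          ne := fun i => one_ne_zero
          mem := fun i => P.one_mem
          reg := hreg
          inv := fun z hz h0 h1 => inv_mem_lo hRW hz h0 h1
          ind := fun c hc _ i => by
            rw [hc i]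
            · exact Ideal.zero_mem _
            · exact fun h => (Ideal.ne_top_iff_one _).1 (maximalIdeal.isMaximal P).ne_top h }
    · intro z hz hz0 hz1
      exact absurd (lo_le hRW (hall z hz0).2) hz1
  · -- the discrete valuation ring
    have hnf : maximalIdeal P ≠ ⊥ := by
      rw [hϖ, Ne, Ideal.span_singleton_eq_bot]
      exact h0
    have hDVR : IsDiscreteValuationRing P := { not_a_field' := hnf }
    have hirr : Irreducible ϖ := (IsDiscreteValuationRing.irreducible_iff_uniformizer ϖ).2 hϖ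
    have h0' : (ϖ : E) ≠ 0 := fun h => h0 (Subtype.ext h)
    refine ⟨?_, (ϖ : E), ?_, ?_⟩
    · have hcmp : ∀ a b : P, (a : E) * (b : E)⁻¹ ∈ P ∨ ((a : E) * (b : E)⁻¹)⁻¹ ∈ P := by
        intro a b
        by_cases ha : (a : E) = 0
        · left; rw [ha, zero_mul]; exact P.zero_mem
        by_cases hb : (b : E) = 0
        · left; rw [hb, inv_zero, mul_zero]; exact P.zero_mem
        have hV : ValuationRing P := inferInstance
        obtain ⟨c, hc⟩ := ValuationRing.cond a b
        rcases hc with hc | hc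
        · right
          have h1 : (a : E) * c = b := congrArg Subtype.val hc
          rw [mul_inv, inv_inv, ← h1, ← mul_assoc, inv_mul_cancel₀ ha, one_mul]
          exact c.2
        · left
          have h1 : (b : E) * c = a := congrArg Subtype.val hc
          rw [← h1, mul_comm (b : E), mul_assoc, mul_inv_cancel₀ hb, mul_one]
          exact c.2
      intro z
      obtain ⟨a, ha, b, hb, hb0, rfl⟩ := hfr z
      exact hcmp ⟨a, hRP ha⟩ ⟨b, hRP hb⟩
    · refine
        { PA := lo_le hRW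
          ne := fun i => h0'
          mem := fun i => ϖ.2
          reg := hreg
          inv := fun z hz h0 h1 => inv_mem_lo hRW hz h0 h1
          ind := ?_ }
      intro c _ hs i
      rw [Fintype.sum_unique, hϖ, Ideal.span_singleton_pow, Ideal.mem_span_singleton] at hs
      obtain ⟨e, he⟩ := hs
      rw [hϖ, Ideal.mem_span_singleton]
      refine ⟨e, mul_right_cancel₀ h0 ?_⟩
      change c i * (⟨ϖ, ϖ.2⟩ : P) = ϖ * e * ϖ
      have h1 : c i = c default := by rfl
      rw [h1, he]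
      ring
    · intro z hz hz0 hz1
      have h1 : (⟨z, hz⟩ : P) ∈ maximalIdeal P := by
        rw [mem_maximalIdeal, mem_nonunits_iff, isUnit_lo_iff hRW]
        exact fun h => hz1 h.2
      have h4 : ϖ ∈ maximalIdeal P := by rw [hϖ]; exact Ideal.mem_span_singleton_self _
      rw [mem_maximalIdeal, mem_nonunits_iff, isUnit_lo_iff hRW] at h4
      rw [hϖ, Ideal.mem_span_singleton] at h1
      obtain ⟨c, hc⟩ := h1
      refine ⟨fun h => h4 ⟨h0', h⟩, c, c.2, ?_⟩
      have h2 : z = (ϖ : E) * c := congrArg Subtype.val hc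
      rw [h2, mul_comm]

end Pool.Agent.W418.WR
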