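import Pool.Agent.W418.WR.Base

/-!
# The local rings
-/

set_option autoImplicit false
set_option linter.unusedVariables false
set_option linter.unusedSectionVars false

universe u v

namespace Pool.Agent.W418.WR

open IsLocalRing LU2 Polynomial

section chain

variable {E F : Type u} [Field E] [Field F] [Algebra E F] {A : Subring F} (hA : Loc A) {κ : Type}
  {y : κ → F} (hy : AlgebraicIndependent E y)

include hy

lemma htr_of {S : Subring F} {s₀ : Set κ} (hS₀ : ∀ z ∈ S, z ∈ Algebra.adjoin E (y '' s₀)) {k : κ}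
    (hk : k ∉ s₀) : ∀ g : (lo A S)[X], eval₂ (lo A S).subtype (y k) g = 0 → g = 0 := by
  intro g hg
  refine trans_of (Algebra.adjoin E (y '' s₀)) (lo A S) ?_ (hy.transcendental_adjoin hk) g hg
  rintro z ⟨a, ha, b, hb, hb0, -, rfl⟩
  refine ⟨b, hS₀ b hb, hb0, ?_⟩
  rw [mul_assoc, inv_mul_cancel₀ hb0, mul_one]
  exact hS₀ a ha

include hA

theorem chain {ι : Type} [Fintype ι] {S : Subring F} (hS : S ≤ A) {x : ι → F}
    (h : RegP A (lo A S) x) {s₀ : Set κ} (hS₀ : ∀ z ∈ S, z ∈ Algebra.adjoin E (y '' s₀))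
    (s : Finset κ) (hs : ∀ k ∈ s, k ∉ s₀ ∧ y k ∈ A) :
    Subring.closure ((S : Set F) ∪ y '' s) ≤ A ∧
    (∀ z ∈ Subring.closure ((S : Set F) ∪ y '' s), z ∈ Algebra.adjoin E (y '' (s₀ ∪ s))) ∧
    RegP A (lo A (Subring.closure ((S : Set F) ∪ y '' s))) x := by
  classical
  have hle : ∀ s : Finset κ, (∀ k ∈ s, y k ∈ A) → Subring.closure ((S : Set F) ∪ y '' s) ≤ A := by
    intro s hs
    rw [Subring.closure_le]
    rintro z (hz | ⟨k, hk, rfl⟩)
    · exact hS hz
    · exact hs k hk
  have had : ∀ s : Finset κ, ∀ z ∈ Subring.closure ((S : Set F) ∪ y '' s),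
      z ∈ Algebra.adjoin E (y '' (s₀ ∪ s)) := by
    intro s
    change Subring.closure ((S : Set F) ∪ y '' s) ≤ (Algebra.adjoin E (y '' (s₀ ∪ s))).toSubring
    rw [Subring.closure_le]
    rintro z (hz | ⟨k, hk, rfl⟩)
    · exact Algebra.adjoin_mono (Set.image_mono Set.subset_union_left) (hS₀ z hz)
    · exact Algebra.subset_adjoin ⟨k, Or.inr hk, rfl⟩
  refine ⟨hle s fun k hk => (hs k hk).2, had s, ?_⟩
  induction s using Finset.induction_on with
  | empty =>
    rw [Finset.coe_empty, Set.image_empty, Set.union_empty, Subring.closure_eq]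
    exact h
  | insert k s hks ih =>
    have h1 := ih fun l hl => hs l (Finset.mem_insert_of_mem hl)
    have h2 := hs k (Finset.mem_insert_self _ _)
    have h3 : y k ≠ 0 := by
      have := hy.ne_zero k
      exact this
    have h4 := h1.trans hA (hle s fun l hl => (hs l (Finset.mem_insert_of_mem hl)).2) h2.2 h3
      (htr_of hy (had s) (by
        rintro (h5 | h5)
        · exact h2.1 h5
        · exact hks h5))
    rw [closure_insert_closure, ← Set.union_insert, ← Set.image_insert_eq] at h4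
    rw [Finset.coe_insert]
    exact RegP.sub h4 Sum.inl Sum.inl_injective

end chain

section forms

variable {F : Type u} [Field F] {I : Type}

/-- The first coordinate of `Z k * conj (Z l)`. -/
def Ac (t m : F) (α β : I → F) (k l : I) : F := α k * α l + t * (α k * β l) + m * (β k * β l)

/-- The second coordinate of `Z k * conj (Z l)`. -/
def Bc (α β : I → F) (k l : I) : F := β k * α l - α k * β l

end forms

section loc

variable {E F : Type u} [Field E] [Field F] [Algebra E F] {A : Subring F} {R : Subring E}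
  (hA : Loc A) (hRA : ∀ r ∈ R, algebraMap E F r ∈ A)
  {I : Type} [Fintype I] [DecidableEq I]
  (hF : ∀ y : I × Bool → F, IntermediateField.adjoin E (Set.range y) = ⊤ →
    AlgebraicIndependent E y)
  (t m : E) (ht : t ∈ R) (hm : m ∈ R) (α β : I → F)
  (hαβ : IntermediateField.adjoin E (Set.range α ∪ Set.range β) = ⊤)

lemma B0_adjoin {κ : Type} {y : κ → F} (s₀ : Set κ) :
    ∀ z ∈ B0 A R, z ∈ Algebra.adjoin E (y '' s₀) := by
  intro z hz
  obtain ⟨e, -, rfl⟩ := mem_B0.1 hz
  exact Subalgebra.algebraMap_mem _ e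

lemma regular_of_le {P : Subring F} (hP : IsRegularLocalRing P) (h1 : P ≤ A) (h2 : A ≤ P) :
    IsRegularLocalRing A := by
  have h3 : P = A := le_antisymm h1 h2
  rw [← h3]
  exact hP

include hA hRA hF ht hm hαβ

theorem local_one [IsDedekindDomain R]
    (hfr : ∀ z : E, ∃ a ∈ R, ∃ b ∈ R, b ≠ 0 ∧ z = a * b⁻¹) (i : I)
    (hg0 : Ac (algebraMap E F t) (algebraMap E F m) α β i i ≠ 0)
    (hmem : ∀ k l, Ac (algebraMap E F t) (algebraMap E F m) α β k l *
        (Ac (algebraMap E F t) (algebraMap E F m) α β i i)⁻¹ ∈ A ∧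
      Bc α β k l * (Ac (algebraMap E F t) (algebraMap E F m) α β i i)⁻¹ ∈ A)
    (hgen : A ≤ lo A (Subring.closure ((B0 A R : Set F) ∪ {z | ∃ k l,
      z = Ac (algebraMap E F t) (algebraMap E F m) α β k l *
        (Ac (algebraMap E F t) (algebraMap E F m) α β i i)⁻¹ ∨
      z = Bc α β k l * (Ac (algebraMap E F t) (algebraMap E F m) α β i i)⁻¹}))) :
    IsRegularLocalRing A := by
  classical
  have hA' := loc_AE (E := E) hA
  have hRA' : R ≤ AE (E := E) A := fun r hr => hRA r hr
  have hBA := B0_le hRA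
  set T := algebraMap E F t with hT
  set M := algebraMap E F m with hM
  have hTB : T ∈ B0 A R := alg_mem_B0 hRA (le_lo _ _ ht)
  have hMB : M ∈ B0 A R := alg_mem_B0 hRA (le_lo _ _ hm)
  set h := Ac T M α β i i with hh
  obtain ⟨-, -, ϖ, hϖ, -⟩ := ded_base (AE (E := E) A) hA' R hRA' hfr
  have hreg : RegP A (lo A (B0 A R)) (fun _ : Unit => algebraMap E F ϖ) := by
    rw [lo_B0 hRA]
    exact hϖ.map (algebraMap E F) (fun e => Iff.rfl)
  let y : I × Bool → F := fun p => if p.1 = i then (if p.2 then β i else α i) else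
    (if p.2 then Bc α β p.1 i * h⁻¹ else Ac T M α β p.1 i * h⁻¹)
  have hy1 : ∀ k, k ≠ i → y (k, true) = Bc α β k i * h⁻¹ := fun k hk => by
    simp only [y, if_neg hk, if_true]
  have hy2 : ∀ k, k ≠ i → y (k, false) = Ac T M α β k i * h⁻¹ := fun k hk => by
    simp only [y, if_neg hk, Bool.false_eq_true, if_false]
  have hy3 : y (i, true) = β i := by simp only [y, if_true]
  have hy4 : y (i, false) = α i := by simp only [y, if_true, Bool.false_eq_true, if_false]
  have hind : AlgebraicIndependent E y := by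
    apply hF
    set L := IntermediateField.adjoin E (Set.range y) with hL
    have hyL : ∀ p, y p ∈ L := fun p => IntermediateField.subset_adjoin E _ ⟨p, rfl⟩
    have hTL : T ∈ L := L.algebraMap_mem t
    have hML : M ∈ L := L.algebraMap_mem m
    have hαi : α i ∈ L := hy4 ▸ hyL (i, false)
    have hβi : β i ∈ L := hy3 ▸ hyL (i, true)
    rw [eq_top_iff, ← hαβ, IntermediateField.adjoin_le_iff]
    rintro z (⟨k, rfl⟩ | ⟨k, rfl⟩)
    · by_cases hk : k = i
      · rw [hk]; exact hαi
      · have h1 : α k = y (k, false) * α i - M * (y (k, true) * β i) := by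
          rw [hy1 k hk, hy2 k hk]
          field_simp
          rw [hh]
          unfold Ac Bc
          ring
        rw [h1]
        exact L.sub_mem (L.mul_mem (hyL _) hαi) (L.mul_mem hML (L.mul_mem (hyL _) hβi))
    · by_cases hk : k = i
      · rw [hk]; exact hβi
      · have h1 : β k = y (k, false) * β i + y (k, true) * α i + T * (y (k, true) * β i) := by
          rw [hy1 k hk, hy2 k hk]
          field_simp
          rw [hh]
          unfold Ac Bc
          ring
        rw [h1]
        exact L.add_mem (L.add_mem (L.mul_mem (hyL _) hβi) (L.mul_mem (hyL _) hαi))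
          (L.mul_mem hTL (L.mul_mem (hyL _) hβi))
  let s : Finset (I × Bool) := Finset.univ.filter fun p => p.1 ≠ i
  obtain ⟨hSA, -, hR⟩ := chain hA hind hBA hreg (s₀ := ∅) (B0_adjoin ∅) s (by
    rintro ⟨k, b⟩ hk
    rw [Finset.mem_filter] at hk
    refine ⟨Set.notMem_empty _, ?_⟩
    cases b
    · rw [hy2 k hk.2]; exact (hmem k i).1
    · rw [hy1 k hk.2]; exact (hmem k i).2)
  set S := Subring.closure ((B0 A R : Set F) ∪ y '' s) with hS
  have hBS : B0 A R ≤ S := fun z hz => Subring.subset_closure (Or.inl hz)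
  have hyS : ∀ k b, k ≠ i → y (k, b) ∈ S := fun k b hk =>
    Subring.subset_closure (Or.inr ⟨(k, b), by simp [s, hk], rfl⟩)
  have haS : ∀ k, Ac T M α β k i * h⁻¹ ∈ S := by
    intro k
    by_cases hk : k = i
    · rw [hk, ← hh, mul_inv_cancel₀ hg0]
      exact S.one_mem
    · rw [← hy2 k hk]
      exact hyS k _ hk
  have hbS : ∀ k, Bc α β k i * h⁻¹ ∈ S := by
    intro k
    by_cases hk : k = i
    · have h1 : Bc α β k i = 0 := by
        rw [hk]
        unfold Bc
        ring
      rw [h1, zero_mul]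
      exact S.zero_mem
    · rw [← hy1 k hk]
      exact hyS k _ hk
  have hle : Subring.closure ((B0 A R : Set F) ∪ {z | ∃ k l, z = Ac T M α β k l * h⁻¹ ∨
      z = Bc α β k l * h⁻¹}) ≤ S := by
    rw [Subring.closure_le]
    rintro z (hz | ⟨k, l, rfl | rfl⟩)
    · exact hBS hz
    · have h1 : Ac T M α β k l * h⁻¹ = (Ac T M α β k i * h⁻¹) * (Ac T M α β l i * h⁻¹) +
          T * ((Ac T M α β k i * h⁻¹) * (Bc α β l i * h⁻¹)) +
          M * ((Bc α β k i * h⁻¹) * (Bc α β l i * h⁻¹)) := by
        field_simp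
        rw [hh]
        unfold Ac Bc
        ring
      rw [h1]
      exact S.add_mem (S.add_mem (S.mul_mem (haS k) (haS l))
        (S.mul_mem (hBS hTB) (S.mul_mem (haS k) (hbS l))))
        (S.mul_mem (hBS hMB) (S.mul_mem (hbS k) (hbS l)))
    · have h1 : Bc α β k l * h⁻¹ = (Bc α β k i * h⁻¹) * (Ac T M α β l i * h⁻¹) -
          (Ac T M α β k i * h⁻¹) * (Bc α β l i * h⁻¹) := by
        field_simp
        rw [hh]
        unfold Ac Bc
        ring
      rw [h1]
      exact S.sub_mem (S.mul_mem (hbS k) (haS l)) (S.mul_mem (haS k) (hbS l))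
  exact regular_of_le hR.reg hR.PA (hgen.trans (lo_mono hle))

end loc

end Pool.Agent.W418.WR
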