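import Pool.Agent.W418.WR.Local

/-!
# The local rings, second case
-/

set_option autoImplicit false
set_option linter.unusedVariables false
set_option linter.unusedSectionVars false

universe u v

namespace Pool.Agent.W418.WR

open IsLocalRing LU2 Polynomial

lemma inv_aux {F : Type u} [Field F] (x w : F) (hw : w ≠ 0) : x⁻¹ = w * (x * w)⁻¹ := by
  rw [mul_inv, mul_comm x⁻¹, ← mul_assoc, mul_inv_cancel₀ hw, one_mul]

section loc

variable {E F : Type u} [Field E] [Field F] [Algebra E F] {A : Subring F} {R : Subring E}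
  (hA : Loc A) (hRA : ∀ r ∈ R, algebraMap E F r ∈ A)
  {I : Type} [Fintype I] [DecidableEq I]
  (hF : ∀ y : I × Bool → F, IntermediateField.adjoin E (Set.range y) = ⊤ →
    AlgebraicIndependent E y)
  (t m : E) (ht : t ∈ R) (hm : m ∈ R) (α β : I → F)
  (hαβ : IntermediateField.adjoin E (Set.range α ∪ Set.range β) = ⊤)

include hA hRA hF ht hm hαβ

theorem local_two [IsDedekindDomain R]
    (hfr : ∀ z : E, ∃ a ∈ R, ∃ b ∈ R, b ≠ 0 ∧ z = a * b⁻¹)
    (hdisc : t ^ 2 - 4 * m ≠ 0)
    (hram : ∀ α ϖ c₁ c₂ : E, α ∈ lo (AE A) R → ϖ ∈ lo (AE A) R → c₁ ∈ lo (AE A) R →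
      c₂ ∈ lo (AE A) R → ϖ ≠ 0 → ϖ⁻¹ ∉ AE (E := E) A → 2 * α + t = c₁ * ϖ →
      α ^ 2 + t * α + m = c₂ * ϖ ^ 2 → False)
    (hres : NU (AE (E := E) A) 2 → ∀ r ∈ R, ∃ ρ ∈ R, NU (AE (E := E) A) (ρ ^ 2 - r))
    (i j : I) (hij : i ≠ j) (hg0 : Bc α β i j ≠ 0)
    (hi : Ac (algebraMap E F t) (algebraMap E F m) α β i i ≠ 0)
    (hx : NU A (Ac (algebraMap E F t) (algebraMap E F m) α β i i * (Bc α β i j)⁻¹))
    (hmem : ∀ k l, Ac (algebraMap E F t) (algebraMap E F m) α β k l * (Bc α β i j)⁻¹ ∈ A ∧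
      Bc α β k l * (Bc α β i j)⁻¹ ∈ A)
    (hgen : A ≤ lo A (Subring.closure ((B0 A R : Set F) ∪ {z | ∃ k l,
      z = Ac (algebraMap E F t) (algebraMap E F m) α β k l * (Bc α β i j)⁻¹ ∨
      z = Bc α β k l * (Bc α β i j)⁻¹}))) :
    IsRegularLocalRing A := by
  classical
  have hA' := loc_AE (E := E) hA
  have hRA' : R ≤ AE (E := E) A := fun r hr => hRA r hr
  have hBA := B0_le hRA
  set T := algebraMap E F t with hT
  set M := algebraMap E F m with hM
  have hTB : T ∈ B0 A R := alg_mem_B0 hRA (le_lo _ _ ht)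
  have hMB : M ∈ B0 A R := alg_mem_B0 hRA (le_lo _ _ hm)
  set g := Bc α β i j with hg
  set a := Ac T M α β i j * g⁻¹ with ha
  set x := Ac T M α β i i * g⁻¹ with hxd
  set w := Ac T M α β j j * g⁻¹ with hw
  have hx0 : x ≠ 0 := mul_ne_zero hi (inv_ne_zero hg0)
  have hnorm : a ^ 2 + T * a + M = x * w := by
    rw [ha, hxd, hw]
    field_simp
    rw [hg]
    unfold Ac Bc
    ring
  let y : I × Bool → F := fun p => if p.1 = i then (if p.2 then β i else α i) else
    (if p.1 = j then (if p.2 then x else a) else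
      (if p.2 then Bc α β i p.1 * g⁻¹ else Bc α β p.1 j * g⁻¹))
  have hy1 : ∀ k, k ≠ i → k ≠ j → y (k, true) = Bc α β i k * g⁻¹ := fun k hk hk' => by
    simp only [y, if_neg hk, if_neg hk', if_true]
  have hy2 : ∀ k, k ≠ i → k ≠ j → y (k, false) = Bc α β k j * g⁻¹ := fun k hk hk' => by
    simp only [y, if_neg hk, if_neg hk', Bool.false_eq_true, if_false]
  have hy3 : y (i, true) = β i := by simp only [y, if_true]
  have hy4 : y (i, false) = α i := by simp only [y, if_true, Bool.false_eq_true, if_false]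
  have hy5 : y (j, true) = x := by simp only [y, if_neg hij.symm, if_true]
  have hy6 : y (j, false) = a := by
    simp only [y, if_neg hij.symm, if_true, Bool.false_eq_true, if_false]
  have hind : AlgebraicIndependent E y := by
    apply hF
    set L := IntermediateField.adjoin E (Set.range y) with hL
    have hyL : ∀ p, y p ∈ L := fun p => IntermediateField.subset_adjoin E _ ⟨p, rfl⟩
    have hTL : T ∈ L := L.algebraMap_mem t
    have hML : M ∈ L := L.algebraMap_mem m
    have hαi : α i ∈ L := hy4 ▸ hyL (i, false)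
    have hβi : β i ∈ L := hy3 ▸ hyL (i, true)
    have hxL : x ∈ L := hy5 ▸ hyL (j, true)
    have haL : a ∈ L := hy6 ▸ hyL (j, false)
    have hαj : α j ∈ L := by
      have h1 : α j = ((a + T) * α i + M * β i) * x⁻¹ := by
        rw [ha, hxd]
        field_simp
        rw [hg]
        unfold Ac Bc
        ring
      rw [h1]
      exact L.mul_mem (L.add_mem (L.mul_mem (L.add_mem haL hTL) hαi) (L.mul_mem hML hβi))
        (L.inv_mem hxL)
    have hβj : β j ∈ L := by
      have h1 : β j = (a * β i - α i) * x⁻¹ := by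
        rw [ha, hxd]
        field_simp
        rw [hg]
        unfold Ac Bc
        ring
      rw [h1]
      exact L.mul_mem (L.sub_mem (L.mul_mem haL hβi) hαi) (L.inv_mem hxL)
    rw [eq_top_iff, ← hαβ, IntermediateField.adjoin_le_iff]
    rintro z (⟨k, rfl⟩ | ⟨k, rfl⟩)
    · by_cases hk : k = i
      · rw [hk]; exact hαi
      by_cases hk' : k = j
      · rw [hk']; exact hαj
      have h1 : α k = y (k, false) * α i + y (k, true) * α j := by
        rw [hy1 k hk hk', hy2 k hk hk']
        field_simp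
        rw [hg]
        unfold Bc
        ring
      rw [h1]
      exact L.add_mem (L.mul_mem (hyL _) hαi) (L.mul_mem (hyL _) hαj)
    · by_cases hk : k = i
      · rw [hk]; exact hβi
      by_cases hk' : k = j
      · rw [hk']; exact hβj
      have h1 : β k = y (k, false) * β i + y (k, true) * β j := by
        rw [hy1 k hk hk', hy2 k hk hk']
        field_simp
        rw [hg]
        unfold Bc
        ring
      rw [h1]
      exact L.add_mem (L.mul_mem (hyL _) hβi) (L.mul_mem (hyL _) hβj)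
  have haA : a ∈ A := (hmem i j).1
  have hxA : x ∈ A := (hmem i i).1
  have hwA : w ∈ A := (hmem j j).1
  -- the norm
  have hR1 := par hRA hA hfr ht hm hdisc hram hres haA (by
    have := htr_of hind (A := A) (S := B0 A R) (s₀ := ∅) (B0_adjoin ∅) (k := (j, false))
      (Set.notMem_empty _)
    rwa [hy6] at this)
  set S₁ := Subring.closure (insert a (B0 A R : Set F)) with hS₁
  have hS₁A : S₁ ≤ A := by
    rw [hS₁, Subring.closure_le]
    rintro z (rfl | hz)
    · exact haA
    · exact hBA hz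
  have hS₁ad : ∀ z ∈ S₁, z ∈ Algebra.adjoin E (y '' {(j, false)}) := by
    change S₁ ≤ (Algebra.adjoin E (y '' {(j, false)})).toSubring
    rw [hS₁, Subring.closure_le]
    rintro z (rfl | hz)
    · exact Algebra.subset_adjoin ⟨_, rfl, hy6⟩
    · exact B0_adjoin _ z hz
  -- the other coordinates
  let s : Finset (I × Bool) := Finset.univ.filter fun p => p.1 ≠ i ∧ p.1 ≠ j
  obtain ⟨hSA, hSad, hR2⟩ := chain hA hind hS₁A hR1 hS₁ad s (by
    rintro ⟨k, b⟩ hk
    rw [Finset.mem_filter] at hk
    refine ⟨?_, ?_⟩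
    · intro h
      exact hk.2.2 (congrArg Prod.fst h)
    cases b
    · rw [hy2 k hk.2.1 hk.2.2]; exact (hmem k j).2
    · rw [hy1 k hk.2.1 hk.2.2]; exact (hmem i k).2)
  set S₂ := Subring.closure ((S₁ : Set F) ∪ y '' s) with hS₂
  have hR3 := hR2.trans hA hSA hxA hx0 (by
    have := htr_of hind (A := A) (S := S₂) hSad (k := (j, true)) (by
      rintro (h | h)
      · exact Bool.false_ne_true (congrArg Prod.snd h).symm
      · rw [Finset.mem_coe, Finset.mem_filter] at h
        exact h.2.2 rfl)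
    rwa [hy5] at this)
  set S₃ := Subring.closure (insert x (S₂ : Set F)) with hS₃
  have hS₃A : S₃ ≤ A := by
    rw [hS₃, Subring.closure_le]
    rintro z (rfl | hz)
    · exact hxA
    · exact hSA hz
  have hxinv : x⁻¹ ∉ A := fun h => hx.2 ⟨hx0, h⟩
  have hdiv : (a ^ 2 + T * a + M) * x⁻¹ = w := by
    rw [hnorm, mul_comm x w, mul_assoc, mul_inv_cancel₀ hx0, mul_one]
  have hGinv : (a ^ 2 + T * a + M)⁻¹ ∉ A := by
    intro h
    apply hxinv
    have hw0 : w ≠ 0 := by
      rintro hw0
      apply hR1.ne ()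
      change a ^ 2 + T * a + M = 0
      rw [hnorm, hw0, mul_zero]
    have h1 : x⁻¹ = w * (a ^ 2 + T * a + M)⁻¹ := by
      rw [hnorm]
      exact inv_aux x w hw0
    rw [h1]
    exact A.mul_mem hwA h
  have hR4 := RegP.blow hA hS₃A hR3 (i := Sum.inl ()) (j := Sum.inr ()) Sum.inl_ne_inr hGinv
    hxinv (by
      change (a ^ 2 + T * a + M) * x⁻¹ ∈ A
      rw [hdiv]
      exact hwA)
  have hins : Subring.closure (insert ((Sum.elim (fun _ : Unit => a ^ 2 + T * a + M)
      (fun _ : Unit => x) (Sum.inl ())) * (Sum.elim (fun _ : Unit => a ^ 2 + T * a + M)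
      (fun _ : Unit => x) (Sum.inr ()))⁻¹) (S₃ : Set F)) =
      Subring.closure (insert w (S₃ : Set F)) := by
    change Subring.closure (insert ((a ^ 2 + T * a + M) * x⁻¹) (S₃ : Set F)) = _
    rw [hdiv]
  rw [hins] at hR4
  set S := Subring.closure (insert w (S₃ : Set F)) with hS
  have h3S : S₃ ≤ S := fun z hz => Subring.subset_closure (Or.inr hz)
  have h2S : S₂ ≤ S := fun z hz => h3S (Subring.subset_closure (Or.inr hz))
  have h1S : S₁ ≤ S := fun z hz => h2S (Subring.subset_closure (Or.inl hz))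
  have hBS : B0 A R ≤ S := fun z hz => h1S (Subring.subset_closure (Or.inr hz))
  have haS : a ∈ S := h1S (Subring.subset_closure (Or.inl rfl))
  have hxS : x ∈ S := h3S (Subring.subset_closure (Or.inl rfl))
  have hwS : w ∈ S := Subring.subset_closure (Or.inl rfl)
  have hyS : ∀ k b, k ≠ i → k ≠ j → y (k, b) ∈ S := fun k b hk hk' =>
    h2S (Subring.subset_closure (Or.inr ⟨(k, b), by simp [s, hk, hk'], rfl⟩))
  have hcS : ∀ k, Bc α β k j * g⁻¹ ∈ S := by
    intro k
    by_cases hk : k = i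
    · rw [hk, ← hg, mul_inv_cancel₀ hg0]
      exact S.one_mem
    by_cases hk' : k = j
    · have h1 : Bc α β k j = 0 := by
        rw [hk']
        unfold Bc
        ring
      rw [h1, zero_mul]
      exact S.zero_mem
    · rw [← hy2 k hk hk']
      exact hyS k _ hk hk'
  have heS : ∀ k, Bc α β i k * g⁻¹ ∈ S := by
    intro k
    by_cases hk : k = i
    · have h1 : Bc α β i k = 0 := by
        rw [hk]
        unfold Bc
        ring
      rw [h1, zero_mul]
      exact S.zero_mem
    by_cases hk' : k = j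
    · rw [hk', ← hg, mul_inv_cancel₀ hg0]
      exact S.one_mem
    · rw [← hy1 k hk hk']
      exact hyS k _ hk hk'
  have hle : Subring.closure ((B0 A R : Set F) ∪ {z | ∃ k l, z = Ac T M α β k l * g⁻¹ ∨
      z = Bc α β k l * g⁻¹}) ≤ S := by
    rw [Subring.closure_le]
    rintro z (hz | ⟨k, l, rfl | rfl⟩)
    · exact hBS hz
    · have h1 : Ac T M α β k l * g⁻¹ =
          (Bc α β k j * g⁻¹) * (Bc α β l j * g⁻¹) * x +
          (Bc α β i k * g⁻¹) * (Bc α β i l * g⁻¹) * w +
          (Bc α β k j * g⁻¹) * (Bc α β i l * g⁻¹) * a +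
          (Bc α β i k * g⁻¹) * (Bc α β l j * g⁻¹) * (a + T) := by
        rw [ha, hxd, hw]
        field_simp
        rw [hg]
        unfold Ac Bc
        ring
      rw [h1]
      exact S.add_mem (S.add_mem (S.add_mem (S.mul_mem (S.mul_mem (hcS k) (hcS l)) hxS)
        (S.mul_mem (S.mul_mem (heS k) (heS l)) hwS)) (S.mul_mem (S.mul_mem (hcS k) (heS l)) haS))
        (S.mul_mem (S.mul_mem (heS k) (hcS l)) (S.add_mem haS (hBS hTB)))
    · have h1 : Bc α β k l * g⁻¹ = (Bc α β k j * g⁻¹) * (Bc α β i l * g⁻¹) -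
          (Bc α β i k * g⁻¹) * (Bc α β l j * g⁻¹) := by
        field_simp
        rw [hg]
        unfold Bc
        ring
      rw [h1]
      exact S.sub_mem (S.mul_mem (hcS k) (heS l)) (S.mul_mem (heS k) (hcS l))
  exact regular_of_le hR4.reg hR4.PA (hgen.trans (lo_mono hle))

end loc

end Pool.Agent.W418.WR
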