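import Pool.Agent.W418.WR.Chart
import Pool.Agent.W418.GO.Fin
import Pool.Agent.W418.Desc

/-!
# The Weil restriction of a projective space has a regular model
-/

set_option autoImplicit false
set_option linter.unusedVariables false
set_option linter.unusedSectionVars false

namespace Pool.Agent.W418.WR

open IsLocalRing LU2 AlgebraicGeometry CategoryTheory CategoryTheory.Limits NumberField

section abs

variable {E F A : Type} [Field E] [NumberField E] [Field F] [Algebra E F] {I : Type} [Fintype I]
  [DecidableEq I] {d : E} {x y : I → F} [CommRing A] [Algebra E A]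

theorem main_abs (hd : d ≠ 0)
    (hN : ∀ i, Pc (algebraMap E F d) x y i i ≠ 0)
    (hxy : IntermediateField.adjoin E (Set.range x ∪ Set.range y) = ⊤)
    (hF : ∀ y : I × Bool → F, IntermediateField.adjoin E (Set.range y) = ⊤ →
      AlgebraicIndependent E y)
    (𝒜 : ℕ → Submodule E A) [GradedAlgebra 𝒜] (ε : A →ₐ[E] F)
    (hε : ∀ d, ∀ a ∈ 𝒜 d, ε a = 0 → a = 0)
    (hgen : ∀ d, (𝒜 d).map ε.toLinearMap = ((𝒜 1).map ε.toLinearMap) ^ d)
    (h1 : (𝒜 1).map ε.toLinearMap = Submodule.span E {z | ∃ k l,
      z = Pc (algebraMap E F d) x y k l ∨ z = Qc x y k l})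
    {X : Scheme.{0}} (f : X ⟶ Spec (CommRingCat.of E)) (i : X ≅ Proj 𝒜)
    (hi : i.hom ≫ GO.projStr 𝒜 = f) : GO.HasModel (𝓞 E) E f := by
  classical
  let _ : Algebra (𝓞 E) F := ((algebraMap E F).comp (algebraMap (𝓞 E) E)).toAlgebra
  have hst : IsScalarTower (𝓞 E) E F := IsScalarTower.of_algebraMap_eq fun _ => rfl
  have hfin : ∀ 𝔭 : Ideal (𝓞 E), 𝔭.IsPrime → 𝔭 ≠ ⊥ → Finite (𝓞 E ⧸ 𝔭) := by
    intro 𝔭 _ h0
    exact Ideal.finiteQuotientOfFreeOfNeBot 𝔭 h0
  have h2 : (2 : E) ≠ 0 := two_ne_zero
  obtain ⟨c₀, hc₀, hc0, hc⟩ : ∃ c₀ ∈ (algebraMap (𝓞 E) E).range, c₀ ≠ 0 ∧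
      c₀ * d ∈ (algebraMap (𝓞 E) E).range := by
    obtain ⟨a, ha, b, hb, hb0, hab⟩ := range_frac (O := 𝓞 E) d
    refine ⟨b, hb, hb0, ?_⟩
    rw [hab, mul_left_comm, mul_inv_cancel₀ hb0, mul_one]
    exact ha
  refine GO.hasModel_of_module (O := 𝓞 E) 𝒜 ε hε hgen 1 one_pos (MM (𝓞 E) d x y) ?_ ?_
    (MM_fg hc₀ hc hc0) ?_ f i hi
  · intro z hz
    rw [pow_one, h1]
    unfold MM at hz
    induction hz using Submodule.span_induction with
    | mem z hz =>
      obtain ⟨u, v, -, k, l, rfl⟩ := hz
      rw [← Algebra.smul_def, ← Algebra.smul_def]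
      exact Submodule.add_mem _
        (Submodule.smul_mem _ _ (Submodule.subset_span ⟨k, l, Or.inl rfl⟩))
        (Submodule.smul_mem _ _ (Submodule.subset_span ⟨k, l, Or.inr rfl⟩))
    | zero => exact Submodule.zero_mem _
    | add a b _ _ ha hb => exact Submodule.add_mem _ ha hb
    | smul o a _ ha =>
      rw [← algebraMap_smul E o a]
      exact Submodule.smul_mem _ _ ha
  · intro z hz
    rw [pow_one, h1] at hz
    obtain ⟨s, hs, hsz⟩ := exists_smul_span (O := 𝓞 E) _ z hz
    have hb := Lam.bound (O := 𝓞 E) (d := d) hc₀ hc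
    have h4 : (4 : E) * (c₀ * d) ≠ 0 :=
      mul_ne_zero (by norm_num) (mul_ne_zero hc0 hd)
    obtain ⟨c, hcc⟩ : 4 * (c₀ * d) ∈ (algebraMap (𝓞 E) E).range :=
      Subring.mul_mem _ (ofNat_mem _ 4) hc
    have hc0' : c ≠ 0 := by
      rintro rfl
      rw [map_zero] at hcc
      exact h4 hcc.symm
    have h20 : (2 : 𝓞 E) ≠ 0 := two_ne_zero
    have key : ∀ w ∈ Submodule.span (𝓞 E) {z : F | ∃ k l,
        z = Pc (algebraMap E F d) x y k l ∨ z = Qc x y k l}, (2 * c) • w ∈ MM (𝓞 E) d x y := by
      intro w hw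
      induction hw using Submodule.span_induction with
      | mem w hw =>
        obtain ⟨k, l, rfl | rfl⟩ := hw
        · rw [mul_comm, mul_smul]
          refine Submodule.smul_mem _ _ (Submodule.subset_span ⟨2, 0, Lam.two, k, l, ?_⟩)
          rw [Algebra.smul_def, map_zero, zero_mul, add_zero, map_ofNat, map_ofNat]
        · rw [mul_smul]
          refine Submodule.smul_mem _ _ (Submodule.subset_span ⟨0, _, hb, k, l, ?_⟩)
          rw [Algebra.smul_def, map_zero, zero_mul, zero_add, ← hcc]
          rfl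
      | zero => rw [smul_zero]; exact Submodule.zero_mem _
      | add a b _ _ ha hb => rw [smul_add]; exact Submodule.add_mem _ ha hb
      | smul o a _ ha =>
        rw [smul_comm]
        exact Submodule.smul_mem _ _ ha
    exact ⟨2 * c * s, mul_ne_zero (mul_ne_zero h20 hc0') hs, by
      rw [mul_smul]
      exact key _ hsz⟩
  · intro f hf hf0 q hq
    exact chart_regular hfin h2 hd hN hxy hF f hf hf0 _ rfl q

end abs

section concrete

variable (E : Type) [Field E] (κ : Type) [Fintype κ]

/-- Algebraic independence of generators. -/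
theorem indep_of_gen (y : κ → FractionRing (MvPolynomial κ E))
    (hy : IntermediateField.adjoin E (Set.range y) = ⊤) : AlgebraicIndependent E y := by
  have h1 : Algebra.IsAlgebraic (Algebra.adjoin E (Set.range y))
      (FractionRing (MvPolynomial κ E)) := by
    constructor
    intro z
    have hz : z ∈ IntermediateField.adjoin E (Set.range y) := by
      rw [hy]
      trivial
    obtain ⟨r, hr, s, hs, rfl⟩ := (IntermediateField.mem_adjoin_iff_div (F := E)).1 hz
    have h2 : IsAlgebraic (Algebra.adjoin E (Set.range y)) (algebraMap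
      (Algebra.adjoin E (Set.range y)) (FractionRing (MvPolynomial κ E)) ⟨r, hr⟩) :=
      isAlgebraic_algebraMap _
    have h3 : IsAlgebraic (Algebra.adjoin E (Set.range y)) (algebraMap
      (Algebra.adjoin E (Set.range y)) (FractionRing (MvPolynomial κ E)) ⟨s, hs⟩) :=
      isAlgebraic_algebraMap _
    rw [div_eq_mul_inv]
    exact h2.mul h3.inv
  refine (Algebra.IsAlgebraic.isTranscendenceBasis_of_lift_le_trdeg_of_finite E y ?_).1
  exact (LU2.indep_Z (E := E) (Θ := κ)).lift_cardinalMk_le_trdeg

theorem gen_top {I : Type} [Fintype I] :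
    IntermediateField.adjoin E
      (Set.range (fun i : I => algebraMap (MvPolynomial (I × Bool) E)
        (FractionRing (MvPolynomial (I × Bool) E)) (MvPolynomial.X (i, false))) ∪
      Set.range (fun i : I => algebraMap (MvPolynomial (I × Bool) E)
        (FractionRing (MvPolynomial (I × Bool) E)) (MvPolynomial.X (i, true)))) = ⊤ := by
  set L := IntermediateField.adjoin E
      (Set.range (fun i : I => algebraMap (MvPolynomial (I × Bool) E)
        (FractionRing (MvPolynomial (I × Bool) E)) (MvPolynomial.X (i, false))) ∪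
      Set.range (fun i : I => algebraMap (MvPolynomial (I × Bool) E)
        (FractionRing (MvPolynomial (I × Bool) E)) (MvPolynomial.X (i, true)))) with hL
  have hX : ∀ p : I × Bool, algebraMap (MvPolynomial (I × Bool) E)
      (FractionRing (MvPolynomial (I × Bool) E)) (MvPolynomial.X p) ∈ L := by
    rintro ⟨i, b⟩
    cases b
    · exact IntermediateField.subset_adjoin E _ (Or.inl ⟨i, rfl⟩)
    · exact IntermediateField.subset_adjoin E _ (Or.inr ⟨i, rfl⟩)
  have hP : ∀ p : MvPolynomial (I × Bool) E, algebraMap (MvPolynomial (I × Bool) E)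
      (FractionRing (MvPolynomial (I × Bool) E)) p ∈ L := by
    intro p
    induction p using MvPolynomial.induction_on with
    | C a =>
      have h1 : algebraMap (MvPolynomial (I × Bool) E)
          (FractionRing (MvPolynomial (I × Bool) E)) (MvPolynomial.C a) =
          algebraMap E (FractionRing (MvPolynomial (I × Bool) E)) a := by
        rw [IsScalarTower.algebraMap_apply E (MvPolynomial (I × Bool) E)
          (FractionRing (MvPolynomial (I × Bool) E))]
        rfl
      rw [h1]
      exact L.algebraMap_mem a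
    | add p q hp hq => rw [map_add]; exact L.add_mem hp hq
    | mul_X p n hp => rw [map_mul]; exact L.mul_mem hp (hX n)
  rw [eq_top_iff]
  rintro z -
  obtain ⟨p, q, _, rfl⟩ := IsFractionRing.div_surjective (A := MvPolynomial (I × Bool) E) z
  exact L.div_mem (hP p) (hP q)

end concrete

section final

open MvPolynomial

/-- The first hermitian coordinates. -/
noncomputable def Ph {E : Type} [Field E] {I : Type} (d : E) (i j : I) :
    MvPolynomial (I × Bool) E :=
  X (i, false) * X (j, false) - C d * (X (i, true) * X (j, true))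

/-- The second hermitian coordinates. -/
noncomputable def Qh {E : Type} [Field E] {I : Type} (i j : I) : MvPolynomial (I × Bool) E :=
  X (i, true) * X (j, false) - X (i, false) * X (j, true)

theorem main {E A : Type} [Field E] [NumberField E] {I : Type} [Fintype I] [DecidableEq I]
    {d : E} (hd : d ≠ 0) [CommRing A] [Algebra E A] (𝒜 : ℕ → Submodule E A) [GradedAlgebra 𝒜]
    (ι : A →ₐ[E] MvPolynomial (I × Bool) E) (hι : Function.Injective ι)
    (h𝒜 : ∀ k, (𝒜 k).map ι.toLinearMap =
      (Submodule.span E {z | ∃ i j, z = Ph d i j ∨ z = Qh i j}) ^ k)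
    {X : Scheme.{0}} (f : X ⟶ Spec (CommRingCat.of E)) (i : X ≅ Proj 𝒜)
    (hi : i.hom ≫ GO.projStr 𝒜 = f) : GO.HasModel (𝓞 E) E f := by
  classical
  let F := FractionRing (MvPolynomial (I × Bool) E)
  let φ : MvPolynomial (I × Bool) E →ₐ[E] F := IsScalarTower.toAlgHom E _ F
  have hφ : Function.Injective φ := IsFractionRing.injective (MvPolynomial (I × Bool) E) F
  let x : I → F := fun i => algebraMap (MvPolynomial (I × Bool) E) F (MvPolynomial.X (i, false))
  let y : I → F := fun i => algebraMap (MvPolynomial (I × Bool) E) F (MvPolynomial.X (i, true))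
  have hCd : ∀ c : E, φ (C c) = algebraMap E F c := fun c => φ.commutes c
  have hP : ∀ i j, φ (Ph d i j) = Pc (algebraMap E F d) x y i j := by
    intro i j
    unfold Ph Pc
    rw [map_sub, map_mul, map_mul, map_mul, hCd]
    rfl
  have hQ : ∀ i j, φ (Qh i j) = Qc x y i j := by
    intro i j
    unfold Qh Qc
    rw [map_sub, map_mul, map_mul]
    rfl
  have hmap : ∀ k, (𝒜 k).map (φ.comp ι).toLinearMap =
      (Submodule.span E {z | ∃ i j, z = Pc (algebraMap E F d) x y i j ∨ z = Qc x y i j}) ^ k := by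
    intro k
    have h1 : (φ.comp ι).toLinearMap = φ.toLinearMap.comp ι.toLinearMap := rfl
    have h2 : φ '' {z | ∃ i j, z = Ph d i j ∨ z = Qh i j} =
        {z | ∃ i j, z = Pc (algebraMap E F d) x y i j ∨ z = Qc x y i j} := by
      ext z
      constructor
      · rintro ⟨_, ⟨i, j, rfl | rfl⟩, rfl⟩
        · exact ⟨i, j, Or.inl (hP i j)⟩
        · exact ⟨i, j, Or.inr (hQ i j)⟩
      · rintro ⟨i, j, rfl | rfl⟩
        · exact ⟨_, ⟨i, j, Or.inl rfl⟩, hP i j⟩
        · exact ⟨_, ⟨i, j, Or.inr rfl⟩, hQ i j⟩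
    rw [h1, Submodule.map_comp, h𝒜, Submodule.map_pow, ← h2]
    congr 1
    exact Submodule.map_span _ _
  refine main_abs (x := x) (y := y) hd ?_ (gen_top E) (fun y => indep_of_gen E (I × Bool) y) 𝒜
    (φ.comp ι) ?_ ?_ ?_ f i hi
  · intro i h
    rw [← hP] at h
    have h1 : Ph d i i = 0 := hφ (by rw [h, map_zero])
    have h2 := congrArg (MvPolynomial.eval (fun p : I × Bool => if p.2 then (0 : E) else 1)) h1
    unfold Ph at h2
    simp at h2
  · intro k a _ ha
    have h1 : φ (ι a) = 0 := ha
    exact hι (by rw [map_zero]; exact hφ (by rw [h1, map_zero]))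
  · intro k
    rw [hmap, hmap, pow_one]
  · rw [hmap, pow_one]

end final

end Pool.Agent.W418.WR
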