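import Pool.Agent.W418.WR.Ord2
import Pool.Agent.W418.WR.Local2

/-!
# The module and its charts
-/

set_option autoImplicit false
set_option linter.unusedVariables false
set_option linter.unusedSectionVars false

universe u v

namespace Pool.Agent.W418.WR

open IsLocalRing LU2

section basics

variable {O E : Type} [CommRing O] [IsDedekindDomain O] [Field E] [Algebra O E]
  [IsFractionRing O E]

lemma range_ded : IsDedekindDomain (algebraMap O E).range := by
  let _ : Algebra O (algebraMap O E).range := (algebraMap O E).rangeRestrict.toAlgebra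
  have hL : IsLocalization (⊥ : Submonoid O) (algebraMap O E).range :=
    { map_units := fun y => by
        obtain ⟨y, hy⟩ := y
        rw [Submonoid.mem_bot] at hy
        subst hy
        change IsUnit (algebraMap O (algebraMap O E).range 1)
        rw [map_one]
        exact isUnit_one
      surj := by
        rintro ⟨z, o, rfl⟩
        refine ⟨(o, 1), ?_⟩
        apply Subtype.ext
        change algebraMap O E o * algebraMap O E 1 = algebraMap O E o
        rw [map_one, mul_one]
      exists_of_eq := by
        intro a b h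
        refine ⟨1, ?_⟩
        have h1 : a = b := IsFractionRing.injective O E (congrArg Subtype.val h)
        rw [h1] }
  exact IsLocalization.isDedekindDomain O (M := (⊥ : Submonoid O)) bot_le _

lemma range_ic (z a b : E) (ha : a ∈ (algebraMap O E).range) (hb : b ∈ (algebraMap O E).range)
    (h : z ^ 2 - a * z + b = 0) : z ∈ (algebraMap O E).range := by
  obtain ⟨a, rfl⟩ := ha
  obtain ⟨b, rfl⟩ := hb
  have h1 : IsIntegral O z := by
    refine ⟨Polynomial.X ^ 2 + (Polynomial.C (-a) * Polynomial.X + Polynomial.C b), ?_, ?_⟩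
    · refine Polynomial.monic_X_pow_add ?_
      refine lt_of_le_of_lt (Polynomial.degree_linear_le (a := -a) (b := b)) ?_
      norm_num
    · rw [Polynomial.eval₂_add, Polynomial.eval₂_add, Polynomial.eval₂_mul,
        Polynomial.eval₂_pow, Polynomial.eval₂_X, Polynomial.eval₂_C, Polynomial.eval₂_C,
        map_neg, ← h]
      ring
  obtain ⟨o, ho⟩ := IsIntegrallyClosed.isIntegral_iff.1 h1
  exact ⟨o, ho⟩

lemma range_frac (z : E) : ∃ a ∈ (algebraMap O E).range, ∃ b ∈ (algebraMap O E).range,
    b ≠ 0 ∧ z = a * b⁻¹ := by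
  obtain ⟨p, q, hq, rfl⟩ := IsFractionRing.div_surjective (A := O) z
  refine ⟨_, ⟨p, rfl⟩, _, ⟨q, rfl⟩, ?_, div_eq_mul_inv _ _⟩
  intro h
  exact nonZeroDivisors.ne_zero hq (IsFractionRing.injective O E (by rw [h, map_zero]))

end basics

section forms

variable {F : Type} [Field F] {I : Type}

/-- The rational part of `(x k + y k √d) (x l - y l √d)`. -/
def Pc (d : F) (x y : I → F) (k l : I) : F := x k * x l - d * (y k * y l)

/-- The coefficient of `√d` in `(x k + y k √d) (x l - y l √d)`. -/
def Qc (x y : I → F) (k l : I) : F := y k * x l - x k * y l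

end forms

section module

variable {O E F : Type} [CommRing O] [IsDedekindDomain O] [Field E] [Algebra O E]
  [IsFractionRing O E] [Field F] [Algebra E F] [Algebra O F] [IsScalarTower O E F]
  {I : Type}

variable (O) in
/-- The dual of the ring of integers of the quadratic extension. -/
def Lam (d u v : E) : Prop :=
  ∀ p q, OK (algebraMap O E).range d p q → u * p + v * q ∈ (algebraMap O E).range

variable (O) in
/-- The module. -/
def MM (d : E) (x y : I → F) : Submodule O F :=
  Submodule.span O {z | ∃ u v : E, Lam O d u v ∧ ∃ k l,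
    z = algebraMap E F u * Pc (algebraMap E F d) x y k l + algebraMap E F v * Qc x y k l}

variable {d : E} {x y : I → F}

lemma Lam.fst {u v : E} (h : Lam O d u v) : u ∈ (algebraMap O E).range := by
  have h1 := h 1 0 OK.one
  rwa [mul_one, mul_zero, add_zero] at h1

lemma Lam.two : Lam O d 2 0 := by
  intro p q h
  rw [zero_mul, add_zero]
  exact h.1

lemma Lam.bound {c₀ : E} (hc₀ : c₀ ∈ (algebraMap O E).range)
    (hc : c₀ * d ∈ (algebraMap O E).range) : Lam O d 0 (4 * (c₀ * d)) := by
  intro p q h
  rw [zero_mul, zero_add]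
  exact h.bound range_ic hc₀ hc

variable [Fintype I] [DecidableEq I]

theorem MM_fg {c₀ : E} (hc₀ : c₀ ∈ (algebraMap O E).range)
    (hc : c₀ * d ∈ (algebraMap O E).range) (hc0 : c₀ ≠ 0) : (MM O d x y).FG := by
  classical
  let G : Set F := (Set.range fun p : I × I => Pc (algebraMap E F d) x y p.1 p.2) ∪
    (Set.range fun p : I × I => algebraMap E F c₀⁻¹ * Qc x y p.1 p.2)
  have hG : G.Finite := (Set.finite_range _).union (Set.finite_range _)
  let N : Submodule O F := Submodule.span O G
  have hN : N.FG := Submodule.fg_span hG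
  have h1 : Module.Finite O N := Module.Finite.iff_fg.2 hN
  have h2' : IsNoetherian O N := isNoetherian_of_isNoetherianRing_of_finite O N
  refine isNoetherian_submodule.1 h2' _ ?_
  unfold MM
  rw [Submodule.span_le]
  rintro z ⟨u, v, huv, k, l, rfl⟩
  obtain ⟨o, ho⟩ := huv.fst
  have h3 := huv 0 c₀ (OK.sqrt hc₀ hc)
  rw [mul_zero, zero_add] at h3
  obtain ⟨o', ho'⟩ := h3
  have h4 : algebraMap E F u * Pc (algebraMap E F d) x y k l + algebraMap E F v * Qc x y k l =
      o • Pc (algebraMap E F d) x y k l + o' • (algebraMap E F c₀⁻¹ * Qc x y k l) := by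
    rw [Algebra.smul_def, Algebra.smul_def, IsScalarTower.algebraMap_apply O E F,
      IsScalarTower.algebraMap_apply O E F, ho, ho', map_mul, map_inv₀]
    have h5 : algebraMap E F c₀ ≠ 0 := (map_ne_zero _).2 hc0
    field_simp
  rw [h4]
  exact N.add_mem (N.smul_mem _ (Submodule.subset_span (Or.inl ⟨(k, l), rfl⟩)))
    (N.smul_mem _ (Submodule.subset_span (Or.inr ⟨(k, l), rfl⟩)))

end module

end Pool.Agent.W418.WR
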