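import Pool.Agent.W418.WR.Base

/-!
# The maximal order of a quadratic extension
-/

set_option autoImplicit false
set_option linter.unusedVariables false
set_option linter.unusedSectionVars false

universe u v

namespace Pool.Agent.W418.WR

open IsLocalRing LU2

variable {E : Type u} [Field E]

/-- `p + q √d` is integral over `R`. -/
def OK (R : Subring E) (d p q : E) : Prop := 2 * p ∈ R ∧ p ^ 2 - d * q ^ 2 ∈ R

variable {R : Subring E} {d : E}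
  (hIC : ∀ z a b : E, a ∈ R → b ∈ R → z ^ 2 - a * z + b = 0 → z ∈ R)

include hIC

lemma OK.add {p q p' q' : E} (h : OK R d p q) (h' : OK R d p' q') : OK R d (p + p') (q + q') := by
  obtain ⟨h1, h2⟩ := h
  obtain ⟨h3, h4⟩ := h'
  have hT : 2 * p * p' - 2 * d * q * q' ∈ R := by
    refine hIC _ ((2 * p) * (2 * p')) ((2 * p) ^ 2 * (p' ^ 2 - d * q' ^ 2) +
      (2 * p') ^ 2 * (p ^ 2 - d * q ^ 2) - 4 * ((p ^ 2 - d * q ^ 2) * (p' ^ 2 - d * q' ^ 2)))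
      (R.mul_mem h1 h3) ?_ ?_
    · exact R.sub_mem (R.add_mem (R.mul_mem (R.pow_mem h1 2) h4)
        (R.mul_mem (R.pow_mem h3 2) h2)) (R.mul_mem (ofNat_mem R 4) (R.mul_mem h2 h4))
    · ring
  refine ⟨?_, ?_⟩
  · rw [mul_add]
    exact R.add_mem h1 h3
  · have h5 : (p + p') ^ 2 - d * (q + q') ^ 2 = (p ^ 2 - d * q ^ 2) + (p' ^ 2 - d * q' ^ 2) +
        (2 * p * p' - 2 * d * q * q') := by ring
    rw [h5]
    exact R.add_mem (R.add_mem h2 h4) hT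

omit hIC in
lemma OK.smul {r p q : E} (hr : r ∈ R) (h : OK R d p q) : OK R d (r * p) (r * q) := by
  refine ⟨?_, ?_⟩
  · rw [mul_left_comm]
    exact R.mul_mem hr h.1
  · have h5 : (r * p) ^ 2 - d * (r * q) ^ 2 = r ^ 2 * (p ^ 2 - d * q ^ 2) := by ring
    rw [h5]
    exact R.mul_mem (R.pow_mem hr 2) h.2

omit hIC in
lemma OK.one : OK R d 1 0 := by
  refine ⟨?_, ?_⟩
  · rw [mul_one]
    exact ofNat_mem R 2
  · have h5 : (1 : E) ^ 2 - d * 0 ^ 2 = 1 := by ring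
    rw [h5]
    exact R.one_mem

omit hIC in
lemma OK.sqrt {c₀ : E} (hc₀ : c₀ ∈ R) (hc : c₀ * d ∈ R) : OK R d 0 c₀ := by
  refine ⟨?_, ?_⟩
  · rw [mul_zero]
    exact R.zero_mem
  · have h5 : (0 : E) ^ 2 - d * c₀ ^ 2 = -(c₀ * (c₀ * d)) := by ring
    rw [h5]
    exact R.neg_mem (R.mul_mem hc₀ hc)

lemma sq_mem {z : E} (h : z ^ 2 ∈ R) : z ∈ R := by
  refine hIC z 0 (-z ^ 2) R.zero_mem ?_ ?_
  · rw [← mul_one (z ^ 2), ← mul_neg_one]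
    have := R.neg_mem h
    convert this using 1
    ring
  · ring

lemma OK.bound {c₀ p q : E} (hc₀ : c₀ ∈ R) (hc : c₀ * d ∈ R) (h : OK R d p q) :
    4 * (c₀ * d) * q ∈ R := by
  apply sq_mem hIC
  have h5 : (4 * (c₀ * d) * q) ^ 2 = 4 * (c₀ * (c₀ * d)) * ((2 * p) ^ 2 -
      4 * (p ^ 2 - d * q ^ 2)) := by ring
  rw [h5]
  exact R.mul_mem (R.mul_mem (ofNat_mem R 4) (R.mul_mem hc₀ hc))
    (R.sub_mem (R.pow_mem h.1 2) (R.mul_mem (ofNat_mem R 4) h.2))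

section loc

variable {W : Subring E} (hW : Loc W) (hRW : R ≤ W)

include hW hRW

/-- A generator of the maximal order over the local ring. -/
theorem exists_gen [IsNoetherianRing (lo W R)]
    (hcmp : ∀ z : E, z ∈ lo W R ∨ z⁻¹ ∈ lo W R) (hd : d ≠ 0) (h2 : (2 : E) ≠ 0)
    {c₀ : E} (hc₀ : c₀ ∈ R) (hc : c₀ * d ∈ R) (hc0 : c₀ ≠ 0) :
    ∃ a₀ b₀ : E, OK R d a₀ b₀ ∧ b₀ ≠ 0 ∧ ∀ p q, OK R d p q →
      q * b₀⁻¹ ∈ lo W R ∧ p - q * b₀⁻¹ * a₀ ∈ lo W R := by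
  classical
  obtain ⟨c, hcd⟩ : ∃ c, c = 4 * (c₀ * d) := ⟨_, rfl⟩
  have h4 : (4 : E) ≠ 0 := by
    have h5 : (4 : E) = 2 * 2 := by norm_num
    rw [h5]
    exact mul_ne_zero h2 h2
  have hcne : c ≠ 0 := by
    rw [hcd]
    exact mul_ne_zero h4 (mul_ne_zero hc0 hd)
  let 𝒮 : Set (Ideal (lo W R)) := {J | ∃ p q, OK R d p q ∧ q ≠ 0 ∧ ∃ h : c * q ∈ lo W R,
    J = Ideal.span {⟨c * q, h⟩}}
  have hmem : ∀ p q, OK R d p q → c * q ∈ lo W R := fun p q h => by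
    rw [hcd]
    exact le_lo _ _ (h.bound hIC hc₀ hc)
  have hne : 𝒮.Nonempty := ⟨_, 0, c₀, OK.sqrt hc₀ hc, hc0, hmem _ _ (OK.sqrt hc₀ hc), rfl⟩
  obtain ⟨J, ⟨a₀, b₀, hab, hb0, hb, rfl⟩, hmax⟩ := set_has_maximal_iff_noetherian.2
    (inferInstance : IsNoetherian (lo W R) (lo W R)) 𝒮 hne
  have hq : ∀ p q, OK R d p q → q * b₀⁻¹ ∈ lo W R := by
    intro p q hpq
    by_cases hq0 : q = 0
    · rw [hq0, zero_mul]
      exact Subring.zero_mem _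
    rcases hcmp (q * b₀⁻¹) with h | h
    · exact h
    · rw [mul_inv, inv_inv] at h
      have h6 := hmax (Ideal.span {⟨c * q, hmem p q hpq⟩}) ⟨p, q, hpq, hq0, hmem p q hpq, rfl⟩
      have h7 : Ideal.span {(⟨c * b₀, hb⟩ : lo W R)} ≤
          Ideal.span {(⟨c * q, hmem p q hpq⟩ : lo W R)} := by
        rw [Ideal.span_singleton_le_span_singleton]
        refine ⟨⟨_, h⟩, Subtype.ext ?_⟩
        change c * b₀ = c * q * (q⁻¹ * b₀)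
        rw [mul_assoc, mul_inv_cancel_left₀ hq0]
      have h8 : Ideal.span {(⟨c * q, hmem p q hpq⟩ : lo W R)} ≤
          Ideal.span {(⟨c * b₀, hb⟩ : lo W R)} := by
        by_contra h9
        exact h6 (lt_of_le_not_ge h7 h9)
      rw [Ideal.span_singleton_le_span_singleton] at h8
      obtain ⟨e, he⟩ := h8
      have h9 : c * q = c * b₀ * e := congrArg Subtype.val he
      have h10 : q * b₀⁻¹ = e := by
        rw [mul_assoc] at h9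
        rw [mul_left_cancel₀ hcne h9, mul_comm b₀, mul_assoc, mul_inv_cancel₀ hb0, mul_one]
      rw [h10]
      exact e.2
  refine ⟨a₀, b₀, hab, hb0, fun p q hpq => ⟨hq p q hpq, ?_⟩⟩
  obtain ⟨r, hr, s, hs, hs0, hsW, hrs⟩ := hq p q hpq
  have h6 : OK R d (s * p + -r * a₀) (s * q + -r * b₀) :=
    (OK.smul hs hpq).add hIC (OK.smul (R.neg_mem hr) hab)
  have h7 : s * q + -r * b₀ = 0 := by
    have h8 : q = r * s⁻¹ * b₀ := by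
      rw [← hrs, mul_assoc, inv_mul_cancel₀ hb0, mul_one]
    rw [h8]
    field_simp
    ring
  rw [h7] at h6
  have h8 : s * p + -r * a₀ ∈ R := by
    apply sq_mem hIC
    have h9 := h6.2
    have h10 : (s * p + -r * a₀) ^ 2 - d * 0 ^ 2 = (s * p + -r * a₀) ^ 2 := by ring
    rwa [h10] at h9
  refine ⟨_, h8, s, hs, hs0, hsW, ?_⟩
  rw [hrs]
  field_simp
  ring

/-- The order is maximal. -/
theorem ram_aux {a₀ b₀ : E} (hb0 : b₀ ≠ 0)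
    (hmin : ∀ p q, OK R d p q → q * b₀⁻¹ ∈ lo W R) (α ϖ c₁ c₂ : E)
    (hc₁ : c₁ ∈ lo W R) (hc₂ : c₂ ∈ lo W R) (hϖ0 : ϖ ≠ 0) (hϖ : ϖ⁻¹ ∉ W)
    (h1 : 2 * α + 2 * a₀ = c₁ * ϖ)
    (h2 : α ^ 2 + 2 * a₀ * α + (a₀ ^ 2 - d * b₀ ^ 2) = c₂ * ϖ ^ 2) : False := by
  obtain ⟨r₁, hr₁, s₁, hs₁, hs₁0, hs₁W, rfl⟩ := hc₁
  obtain ⟨r₂, hr₂, s₂, hs₂, hs₂0, hs₂W, rfl⟩ := hc₂
  set s := s₁ * s₂ with hs
  have hsR : s ∈ R := R.mul_mem hs₁ hs₂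
  have hs0 : s ≠ 0 := mul_ne_zero hs₁0 hs₂0
  have hsW : s⁻¹ ∈ W := by
    rw [hs, mul_inv]
    exact W.mul_mem hs₁W hs₂W
  have h3 : OK R d (s * (α + a₀) * ϖ⁻¹) (s * b₀ * ϖ⁻¹) := by
    refine ⟨?_, ?_⟩
    · have h4 : 2 * (s * (α + a₀) * ϖ⁻¹) = s₂ * r₁ := by
        have h5 : 2 * (s * (α + a₀) * ϖ⁻¹) = s * (2 * α + 2 * a₀) * ϖ⁻¹ := by ring
        rw [h5, h1, hs]
        field_simp
      rw [h4]
      exact R.mul_mem hs₂ hr₁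
    · have h4 : (s * (α + a₀) * ϖ⁻¹) ^ 2 - d * (s * b₀ * ϖ⁻¹) ^ 2 = s₁ ^ 2 * s₂ * r₂ := by
        have h5 : (s * (α + a₀) * ϖ⁻¹) ^ 2 - d * (s * b₀ * ϖ⁻¹) ^ 2 =
            s ^ 2 * (α ^ 2 + 2 * a₀ * α + (a₀ ^ 2 - d * b₀ ^ 2)) * (ϖ⁻¹) ^ 2 := by ring
        rw [h5, h2, hs]
        field_simp
      rw [h4]
      exact R.mul_mem (R.mul_mem (R.pow_mem hs₁ 2) hs₂) hr₂
  have h4 := lo_le hRW (hmin _ _ h3)
  have h5 : s * b₀ * ϖ⁻¹ * b₀⁻¹ = s * ϖ⁻¹ := by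
    field_simp
  rw [h5] at h4
  apply hϖ
  have h6 : ϖ⁻¹ = s⁻¹ * (s * ϖ⁻¹) := by
    rw [inv_mul_cancel_left₀ hs0]
  rw [h6]
  exact W.mul_mem hsW h4

end loc

end Pool.Agent.W418.WR
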