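import Pool.Agent.W418.WR.Ord

/-!
# Denominators, squares in residue fields, localizations
-/

set_option autoImplicit false
set_option linter.unusedVariables false
set_option linter.unusedSectionVars false

universe u v

namespace Pool.Agent.W418.WR

open IsLocalRing LU2

section denom

variable {E : Type u} [Field E] {R : Subring E} {W : Subring E}

lemma denom_finset {X : Type} (hRW : R ≤ W) (l : X → E) (S : Finset X)
    (hS : ∀ x ∈ S, l x ∈ lo W R) :
    ∃ s ∈ R, s ≠ 0 ∧ s⁻¹ ∈ W ∧ ∀ x ∈ S, s * l x ∈ R := by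
  classical
  induction S using Finset.induction_on with
  | empty =>
    exact ⟨1, R.one_mem, one_ne_zero, by rw [inv_one]; exact W.one_mem,
      fun x hx => absurd hx (Finset.notMem_empty _)⟩
  | insert y S hy ih =>
    obtain ⟨s, hs, hs0, hsW, h⟩ := ih fun x hx => hS x (Finset.mem_insert_of_mem hx)
    obtain ⟨a, ha, b, hb, hb0, hbW, hab⟩ := hS y (Finset.mem_insert_self _ _)
    refine ⟨s * b, R.mul_mem hs hb, mul_ne_zero hs0 hb0, ?_, ?_⟩
    · rw [mul_inv]
      exact W.mul_mem hsW hbW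
    · intro x hx
      rcases Finset.mem_insert.1 hx with rfl | hx
      · have h1 : s * b * l x = s * a := by
          rw [hab]
          field_simp
        rw [h1]
        exact R.mul_mem hs ha
      · have h1 : s * b * l x = b * (s * l x) := by ring
        rw [h1]
        exact R.mul_mem hb (h x hx)

/-- The integral elements as a module. -/
def OKm (R : Subring E) (d : E)
    (hIC : ∀ z a b : E, a ∈ R → b ∈ R → z ^ 2 - a * z + b = 0 → z ∈ R) :
    Submodule R (E × E) where
  carrier := {x | OK R d x.1 x.2}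
  add_mem' := fun {a b} ha hb => OK.add hIC ha hb
  zero_mem' := by
    change OK R d 0 0
    have := OK.smul (R := R) (d := d) R.zero_mem (OK.one (R := R) (d := d))
    rwa [zero_mul, zero_mul] at this
  smul_mem' := by
    intro c x hx
    exact OK.smul c.2 hx

theorem OKm_fg [IsNoetherianRing R] {d : E}
    (hIC : ∀ z a b : E, a ∈ R → b ∈ R → z ^ 2 - a * z + b = 0 → z ∈ R) (h2 : (2 : E) ≠ 0)
    (hd : d ≠ 0) {c₀ : E} (hc₀ : c₀ ∈ R) (hc : c₀ * d ∈ R) (hc0 : c₀ ≠ 0) :
    (OKm R d hIC).FG := by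
  classical
  obtain ⟨c, hcd⟩ : ∃ c, c = 4 * (c₀ * d) := ⟨_, rfl⟩
  have h4 : (4 : E) ≠ 0 := by
    have h5 : (4 : E) = 2 * 2 := by norm_num
    rw [h5]
    exact mul_ne_zero h2 h2
  have hcne : c ≠ 0 := by
    rw [hcd]
    exact mul_ne_zero h4 (mul_ne_zero hc0 hd)
  let N : Submodule R (E × E) := Submodule.span R {((2 : E)⁻¹, (0 : E)), ((0 : E), c⁻¹)}
  have hN : N.FG := Submodule.fg_span (Set.toFinite _)
  have h1 : Module.Finite R N := Module.Finite.iff_fg.2 hN
  have h2' : IsNoetherian R N := isNoetherian_of_isNoetherianRing_of_finite R N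
  refine isNoetherian_submodule.1 h2' _ ?_
  · rintro ⟨p, q⟩ hpq
    change OK R d p q at hpq
    have h5 := hpq.1
    have h6 : c * q ∈ R := by
      rw [hcd]
      exact hpq.bound hIC hc₀ hc
    have h7 : ((p, q) : E × E) = (⟨2 * p, h5⟩ : R) • ((2 : E)⁻¹, (0 : E)) +
        (⟨c * q, h6⟩ : R) • ((0 : E), c⁻¹) := by
      ext
      · change p = 2 * p * (2 : E)⁻¹ + c * q * 0
        field_simp
        ring
      · change q = 2 * p * 0 + c * q * c⁻¹
        field_simp
        ring
    rw [h7]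
    exact N.add_mem (N.smul_mem _ (Submodule.subset_span (Or.inl rfl)))
      (N.smul_mem _ (Submodule.subset_span (Or.inr rfl)))

theorem denom [IsNoetherianRing R] {d : E} (hRW : R ≤ W)
    (hIC : ∀ z a b : E, a ∈ R → b ∈ R → z ^ 2 - a * z + b = 0 → z ∈ R) (h2 : (2 : E) ≠ 0)
    (hd : d ≠ 0) {c₀ : E} (hc₀ : c₀ ∈ R) (hc : c₀ * d ∈ R) (hc0 : c₀ ≠ 0) (u v : E)
    (huv : ∀ p q, OK R d p q → u * p + v * q ∈ lo W R) :
    ∃ s ∈ R, s ≠ 0 ∧ s⁻¹ ∈ W ∧ ∀ p q, OK R d p q → s * (u * p + v * q) ∈ R := by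
  classical
  obtain ⟨S, hS⟩ := OKm_fg hIC h2 hd hc₀ hc hc0
  have hSsub : ∀ x ∈ S, OK R d x.1 x.2 := fun x hx => by
    have h3 : x ∈ OKm R d hIC := by
      rw [← hS]
      exact Submodule.subset_span hx
    exact h3
  obtain ⟨s, hs, hs0, hsW, h⟩ : ∃ s ∈ R, s ≠ 0 ∧ s⁻¹ ∈ W ∧
      ∀ x ∈ S, s * (u * x.1 + v * x.2) ∈ R := by
    clear hS
    induction S using Finset.induction_on with
    | empty =>
      exact ⟨1, R.one_mem, one_ne_zero, by rw [inv_one]; exact W.one_mem,
        fun x hx => absurd hx (Finset.notMem_empty _)⟩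
    | insert y S hy ih =>
      obtain ⟨s, hs, hs0, hsW, h⟩ := ih fun x hx => hSsub x (Finset.mem_insert_of_mem hx)
      obtain ⟨a, ha, b, hb, hb0, hbW, hab⟩ := huv _ _ (hSsub y (Finset.mem_insert_self _ _))
      refine ⟨s * b, R.mul_mem hs hb, mul_ne_zero hs0 hb0, ?_, ?_⟩
      · rw [mul_inv]
        exact W.mul_mem hsW hbW
      · intro x hx
        rcases Finset.mem_insert.1 hx with rfl | hx
        · have h1 : s * b * (u * x.1 + v * x.2) = s * a := by
            rw [hab]
            field_simp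
          rw [h1]
          exact R.mul_mem hs ha
        · have h1 : s * b * (u * x.1 + v * x.2) = b * (s * (u * x.1 + v * x.2)) := by ring
          rw [h1]
          exact R.mul_mem hb (h x hx)
  refine ⟨s, hs, hs0, hsW, fun p q hpq => ?_⟩
  have h3 : ((p, q) : E × E) ∈ Submodule.span R (S : Set (E × E)) := by
    rw [hS]
    exact hpq
  have h4 : ∀ x ∈ Submodule.span R (S : Set (E × E)), s * (u * x.1 + v * x.2) ∈ R := by
    intro x hx
    induction hx using Submodule.span_induction with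
    | mem x hx => exact h x hx
    | zero =>
      change s * (u * 0 + v * 0) ∈ R
      rw [mul_zero, mul_zero, add_zero, mul_zero]
      exact R.zero_mem
    | add x y _ _ hx hy =>
      change s * (u * (x.1 + y.1) + v * (x.2 + y.2)) ∈ R
      have h5 : s * (u * (x.1 + y.1) + v * (x.2 + y.2)) =
          s * (u * x.1 + v * x.2) + s * (u * y.1 + v * y.2) := by ring
      rw [h5]
      exact R.add_mem hx hy
    | smul a x _ hx =>
      change s * (u * ((a : E) * x.1) + v * ((a : E) * x.2)) ∈ R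
      have h5 : s * (u * ((a : E) * x.1) + v * ((a : E) * x.2)) =
          a * (s * (u * x.1 + v * x.2)) := by ring
      rw [h5]
      exact R.mul_mem a.2 hx
  exact h4 _ h3

end denom

section res

variable {E : Type u} [Field E] {O : Type v} [CommRing O] [Algebra O E]

/-- Squares in residue fields of characteristic two. -/
theorem res_square (hinj : Function.Injective (algebraMap O E))
    (hfin : ∀ 𝔭 : Ideal O, 𝔭.IsPrime → 𝔭 ≠ ⊥ → Finite (O ⧸ 𝔭)) {W : Subring E} (hW : Loc W)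
    (hRW : (algebraMap O E).range ≤ W) (h20 : (2 : E) ≠ 0) (h2 : NU W 2) :
    ∀ r ∈ (algebraMap O E).range, ∃ ρ ∈ (algebraMap O E).range, NU W (ρ ^ 2 - r) := by
  have hloc := isLocalRing_of_loc hW
  have hOW : ∀ o, algebraMap O E o ∈ W := fun o => hRW ⟨o, rfl⟩
  let φ : O →+* W := (algebraMap O E).codRestrict W hOW
  let 𝔭 : Ideal O := (maximalIdeal W).comap φ
  have h𝔭 : 𝔭.IsPrime := Ideal.IsPrime.comap _
  have hmem : ∀ o, o ∈ 𝔭 ↔ NU W (algebraMap O E o) := fun o => (nu_iff hW (φ o)).symm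
  have h2𝔭 : (2 : O) ∈ 𝔭 := by
    rw [hmem, map_ofNat]
    exact h2
  have h𝔭0 : 𝔭 ≠ ⊥ := by
    intro h
    rw [h, Ideal.mem_bot] at h2𝔭
    apply h20
    rw [← map_ofNat (algebraMap O E) 2, h2𝔭, map_zero]
  have hF := hfin 𝔭 h𝔭 h𝔭0
  have hD : IsDomain (O ⧸ 𝔭) := (Ideal.Quotient.isDomain_iff_prime 𝔭).2 h𝔭
  have h2k : (2 : O ⧸ 𝔭) = 0 := by
    rw [← map_ofNat (Ideal.Quotient.mk 𝔭) 2, Ideal.Quotient.eq_zero_iff_mem]
    exact h2𝔭
  have hsq : Function.Injective (fun x : O ⧸ 𝔭 => x ^ 2) := by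
    intro x y hxy
    have h1 : (x - y) ^ 2 = 0 := by
      have h3 : (x - y) ^ 2 = (x ^ 2 - y ^ 2) + 2 * (y ^ 2 - x * y) := by ring
      have h4 : x ^ 2 = y ^ 2 := hxy
      rw [h3, h4, h2k]
      ring
    exact sub_eq_zero.1 (pow_eq_zero_iff (two_ne_zero)|>.1 h1)
  have hsurj := Finite.surjective_of_injective hsq
  rintro _ ⟨r, rfl⟩
  obtain ⟨x, hx⟩ := hsurj (Ideal.Quotient.mk 𝔭 r)
  obtain ⟨ρ, rfl⟩ := Ideal.Quotient.mk_surjective x
  refine ⟨algebraMap O E ρ, ⟨ρ, rfl⟩, ?_⟩
  rw [← map_pow, ← map_sub, ← hmem, ← Ideal.Quotient.eq]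
  exact hx

end res

section loc

/-- The local ring in the field. -/
theorem exists_loc {B F : Type u} [CommRing B] [Field F] (φ : B →+* F)
    (hφ : Function.Injective φ) (q : Ideal B) [hq : q.IsPrime] :
    ∃ A : Subring F, Loc A ∧ (∀ b, φ b ∈ A) ∧
      (∀ z ∈ A, ∃ a b, φ b ≠ 0 ∧ (φ b)⁻¹ ∈ A ∧ z = φ a * (φ b)⁻¹) ∧
      (IsRegularLocalRing A → IsRegularLocalRing (Localization.AtPrime q)) := by
  have hne : ∀ b, b ∉ q → φ b ≠ 0 := by
    intro b hb h
    apply hb
    have h1 : b = 0 := hφ (by rw [h, map_zero])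
    rw [h1]
    exact q.zero_mem
  have h1q : (1 : B) ∉ q := (Ideal.ne_top_iff_one q).1 hq.ne_top
  let A : Subring F :=
    { carrier := {z | ∃ a b, b ∉ q ∧ z = φ a * (φ b)⁻¹}
      mul_mem' := by
        rintro x y ⟨a, b, hb, rfl⟩ ⟨c, e, he, rfl⟩
        refine ⟨a * c, b * e, fun h => ?_, ?_⟩
        · rcases hq.mem_or_mem h with h | h
          · exact hb h
          · exact he h
        · rw [map_mul, map_mul, mul_inv]
          ring
      one_mem' := ⟨1, 1, h1q, by rw [map_one, inv_one, mul_one]⟩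
      add_mem' := by
        rintro x y ⟨a, b, hb, rfl⟩ ⟨c, e, he, rfl⟩
        refine ⟨a * e + c * b, b * e, fun h => ?_, ?_⟩
        · rcases hq.mem_or_mem h with h | h
          · exact hb h
          · exact he h
        · have h1 := hne b hb
          have h2 := hne e he
          rw [map_add, map_mul, map_mul, map_mul]
          field_simp
      zero_mem' := ⟨0, 1, h1q, by rw [map_zero, zero_mul]⟩
      neg_mem' := by
        rintro x ⟨a, b, hb, rfl⟩
        exact ⟨-a, b, hb, by rw [map_neg, neg_mul]⟩ }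
  have hmem : ∀ z, z ∈ A ↔ ∃ a b, b ∉ q ∧ z = φ a * (φ b)⁻¹ := fun z => Iff.rfl
  have hBA : ∀ b, φ b ∈ A := fun b => ⟨b, 1, h1q, by rw [map_one, inv_one, mul_one]⟩
  have hinv : ∀ b, b ∉ q → (φ b)⁻¹ ∈ A := fun b hb => ⟨1, b, hb, by rw [map_one, one_mul]⟩
  have hL : Loc A := by
    rintro z ⟨a, b, hb, rfl⟩
    have hb0 := hne b hb
    by_cases ha : a ∈ q
    · right
      have hab : b - a ∉ q := fun h => hb (by
        have := q.add_mem h ha
        rwa [sub_add_cancel] at this)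
      have h3 : 1 - φ a * (φ b)⁻¹ = φ (b - a) * (φ b)⁻¹ := by
        rw [map_sub, sub_mul, mul_inv_cancel₀ hb0]
      rw [h3]
      refine ⟨mul_ne_zero (hne _ hab) (inv_ne_zero hb0), ?_⟩
      rw [mul_inv, inv_inv]
      exact A.mul_mem (hinv _ hab) (hBA b)
    · left
      refine ⟨mul_ne_zero (hne a ha) (inv_ne_zero hb0), ?_⟩
      rw [mul_inv, inv_inv]
      exact A.mul_mem (hinv _ ha) (hBA b)
  refine ⟨A, hL, hBA, ?_, ?_⟩
  · rintro z ⟨a, b, hb, rfl⟩
    exact ⟨a, b, hne b hb, hinv b hb, rfl⟩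
  · intro hreg
    let ψ : B →+* A := φ.codRestrict A hBA
    let _ : Algebra B A := ψ.toAlgebra
    have halg : ∀ b, ((algebraMap B A b : A) : F) = φ b := fun b => rfl
    have hLoc : IsLocalization.AtPrime A q :=
      { map_units := fun y => by
          rw [isUnit_iff']
          exact ⟨hne _ y.2, hinv _ y.2⟩
        surj := by
          rintro ⟨z, a, b, hb, rfl⟩
          refine ⟨(a, ⟨b, hb⟩), ?_⟩
          apply Subtype.ext
          change φ a * (φ b)⁻¹ * φ b = φ a
          rw [mul_assoc, inv_mul_cancel₀ (hne b hb), mul_one]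
        exists_of_eq := by
          intro a b h
          refine ⟨1, ?_⟩
          have h1 : a = b := hφ (congrArg Subtype.val h)
          rw [h1] }
    exact IsRegularLocalRing.of_ringEquiv
      (IsLocalization.algEquiv q.primeCompl A (Localization.AtPrime q)).toRingEquiv

end loc

end Pool.Agent.W418.WR
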