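import Pool.Agent.W418.LU2.Tor2
import Pool.Agent.W418.WR.Ded

/-!
# Parameters
-/

set_option autoImplicit false
set_option linter.unusedVariables false
set_option linter.unusedSectionVars false

universe u v

namespace Pool.Agent.W418.WR

open IsLocalRing LU2 Polynomial

theorem der_not_mem {B : Type u} [CommRing B] (P : Ideal B[X]) [hP : P.IsPrime] (G : B[X])
    (hG1 : G ∈ P) (hG : derivative G ∉ P) :
    algebraMap B[X] (Localization.AtPrime P) G ∉ maximalIdeal (Localization.AtPrime P) ^ 2 := by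
  intro h
  rw [← Localization.AtPrime.map_eq_maximalIdeal, ← Ideal.map_pow,
    IsLocalization.mem_map_algebraMap_iff P.primeCompl] at h
  obtain ⟨⟨⟨i, hi⟩, s⟩, h1⟩ := h
  rw [← map_mul] at h1
  obtain ⟨s', h2⟩ := (IsLocalization.eq_iff_exists P.primeCompl _).1 h1
  have h3 : ((s' : B[X]) * s) * G ∈ P ^ 2 := by
    have h4 : ((s' : B[X]) * s) * G = s' * i := by
      rw [← h2]
      ring
    rw [h4]
    exact Ideal.mul_mem_left _ _ hi
  have h4 : ∀ x ∈ P ^ 2, derivative x ∈ P := by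
    intro x hx
    rw [pow_two] at hx
    refine Submodule.mul_induction_on hx ?_ ?_
    · intro m hm n hn
      rw [derivative_mul]
      exact P.add_mem (P.mul_mem_left _ hn) (P.mul_mem_right _ hm)
    · intro x y hx hy
      rw [derivative_add]
      exact P.add_mem hx hy
  have h5 := h4 _ h3
  rw [derivative_mul] at h5
  have h6 : ((s' : B[X]) * s) * derivative G ∈ P :=
    (P.add_mem_iff_right (P.mul_mem_left _ hG1)).1 h5
  rcases hP.mem_or_mem h6 with h7 | h7
  · rcases hP.mem_or_mem h7 with h8 | h8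
    · exact s'.2 h8
    · exact s.2 h8
  · exact hG h7

lemma indN_unit {B : Type u} [CommRing B] [IsLocalRing B] (z : B)
    (hz : z ∈ maximalIdeal B → z ∉ maximalIdeal B ^ 2) : IndN (fun _ : Unit => z) := by
  intro c hc hs i
  rw [Fintype.sum_unique] at hs
  have h0 : c i = c default := rfl
  rw [h0]
  by_contra h1
  by_cases hzm : z ∈ maximalIdeal B
  · rw [mem_maximalIdeal, mem_nonunits_iff, not_not] at h1
    refine hz hzm ?_
    exact (Ideal.unit_mul_mem_iff_mem _ h1).1 hs
  · exact h1 (by rw [hc default hzm]; exact Ideal.zero_mem _)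

variable {F : Type u} [Field F]

lemma RegP.sub {A P : Subring F} {ι κ : Type} [Fintype ι] [Fintype κ] {x : ι → F}
    (h : RegP A P x) (f : κ → ι) (hf : Function.Injective f) : RegP A P (fun k => x (f k)) := by
  classical
  have hreg := h.reg
  refine ⟨h.PA, fun k => h.ne _, fun k => h.mem _, h.reg, h.inv, ?_⟩
  intro c hc hs k
  have h1 : ∀ i ∉ Set.range f, Function.extend f c 0 i = 0 := by
    intro i hi
    exact Function.extend_apply' _ _ _ hi
  have h2 := h.ind (Function.extend f c 0) (by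
    intro i hi
    by_cases h3 : i ∈ Set.range f
    · obtain ⟨k, rfl⟩ := h3
      rw [hf.extend_apply]
      exact hc k hi
    · exact h1 i h3) (by
    rw [← Fintype.sum_of_injective f hf (fun k => c k * (⟨x (f k), h.mem _⟩ : P))]
    · exact hs
    · intro i hi
      rw [h1 i hi, zero_mul]
    · intro k
      rw [hf.extend_apply]) (f k)
  rwa [hf.extend_apply] at h2

section

variable {A S : Subring F} (hA : Loc A) (hS : S ≤ A)

include hA hS

theorem par_unr {ι : Type} [Fintype ι] {x : ι → F} (h : RegP A (lo A S) x) {a : F} (ha : a ∈ A)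
    (ha0 : a ≠ 0) (htr : ∀ g : (lo A S)[X], eval₂ (lo A S).subtype a g = 0 → g = 0)
    (G : (lo A S)[X]) (hG : eval₂ (lo A S).subtype a G ≠ 0)
    (hG' : NU A (eval₂ (lo A S).subtype a G) →
      ¬ NU A (eval₂ (lo A S).subtype a (derivative G))) :
    RegP A (lo A (Subring.closure (insert a (S : Set F))))
      (fun _ : Unit => eval₂ (lo A S).subtype a G) := by
  classical
  have h1 := h.trans hA hS ha ha0 htr
  have ad := adj_closure hA hS ha
  have hP := ad.P_prime
  have hreg := h1.reg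
  have hinj : Function.Injective ad.th := by
    rw [injective_iff_map_eq_zero]
    intro y hy
    obtain ⟨g, s, rfl⟩ := IsLocalization.exists_mk'_eq ad.P.primeCompl y
    have h3 : ad.ev g = 0 := by
      have h4 : ad.th (IsLocalization.mk' _ g s * algebraMap _ _ (s : (lo A S)[X])) = 0 := by
        rw [map_mul, hy, zero_mul]
      rw [IsLocalization.mk'_spec, ad.th_alg] at h4
      exact h4
    have h4 : g = 0 := htr g (congrArg Subtype.val h3)
    rw [h4, IsLocalization.mk'_zero]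
  let e := RingEquiv.ofBijective ad.th ⟨hinj, ad.th_surj⟩
  have he : ∀ g, e (algebraMap (lo A S)[X] (Localization.AtPrime ad.P) g) = ad.ev g :=
    fun g => ad.th_alg g
  have hnu : ∀ g : (lo A S)[X], g ∈ ad.P ↔ NU A (eval₂ (lo A S).subtype a g) := by
    intro g
    rw [← not_iff_not, ad.not_mem_P, isUnit_lo_iff ad.SA, ad.ev_coe]
    unfold NU
    constructor
    · intro h2 h3
      exact h3.2 h2
    · intro h2
      by_contra h3
      exact h2 ⟨lo_le ad.SA (ad.ev_mem g), h3⟩
  have hind : IndN (fun _ : Unit => algebraMap (lo A S)[X] (Localization.AtPrime ad.P) G) := by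
    apply indN_unit
    intro h2
    have h3 : G ∈ ad.P := (IsLocalization.AtPrime.to_map_mem_maximal_iff _ ad.P _).1 h2
    refine der_not_mem ad.P G h3 ?_
    rw [hnu]
    exact hG' ((hnu G).1 h3)
  have hind2 := hind.equiv e
  refine ⟨h1.PA, fun _ => hG, fun _ => ad.ev_mem G, h1.reg, h1.inv, ?_⟩
  convert hind2 using 2
  rw [he]
  rfl

theorem par_ram {ϖ : F} (h : RegP A (lo A S) (fun _ : Unit => ϖ)) (hϖ : ϖ⁻¹ ∉ A) {b : F}
    (hb0 : b ≠ 0) (hb : NU A b) (htr : ∀ g : (lo A S)[X], eval₂ (lo A S).subtype b g = 0 → g = 0)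
    {u w : F} (hu : u ∈ lo A S) (hu1 : ¬ NU A u) (hw : w ∈ lo A S) (hw1 : NU A w) :
    RegP A (lo A (Subring.closure (insert b (S : Set F))))
      (fun _ : Unit => b ^ 2 + w * b + u * ϖ) := by
  classical
  have h1 := h.trans hA hS hb.1 hb0 htr
  have hreg := h1.reg
  set P := lo A (Subring.closure (insert b (S : Set F))) with hPdef
  have hle : lo A S ≤ P := lo_mono fun y hy => Subring.subset_closure (Set.mem_insert_of_mem _ hy)
  have hbP : b ∈ P := h1.mem (Sum.inr ())
  have hϖP : ϖ ∈ P := h1.mem (Sum.inl ())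
  have hwP : w ∈ P := hle hw
  have huP : u ∈ P := hle hu
  have hmax : ∀ y : P, y ∈ maximalIdeal P ↔ NU A (y : F) := by
    intro y
    rw [h1.mem_max]
    exact ⟨fun h => ⟨h1.PA y.2, h⟩, fun h => h.2⟩
  have hg : b ^ 2 + w * b + u * ϖ ∈ P :=
    P.add_mem (P.add_mem (P.pow_mem hbP 2) (P.mul_mem hwP hbP)) (P.mul_mem huP hϖP)
  have hkey : (⟨_, hg⟩ : P) ∉ maximalIdeal P ^ 2 := by
    intro h2
    have h3 : (⟨b, hbP⟩ : P) ∈ maximalIdeal P := (hmax _).2 hb
    have h4 : (⟨w, hwP⟩ : P) ∈ maximalIdeal P := (hmax _).2 hw1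
    have h5 : (⟨b, hbP⟩ : P) ^ 2 + ⟨w, hwP⟩ * ⟨b, hbP⟩ ∈ maximalIdeal P ^ 2 :=
      Ideal.add_mem _ (Ideal.pow_mem_pow h3 2) (by rw [pow_two]; exact Ideal.mul_mem_mul h4 h3)
    have h6 : (⟨u, huP⟩ : P) * ⟨ϖ, hϖP⟩ ∈ maximalIdeal P ^ 2 := by
      have h7 : (⟨_, hg⟩ : P) = ((⟨b, hbP⟩ : P) ^ 2 + ⟨w, hwP⟩ * ⟨b, hbP⟩) +
          (⟨u, huP⟩ : P) * ⟨ϖ, hϖP⟩ := rfl
      rw [h7] at h2
      exact (Ideal.add_mem_iff_right _ h5).1 h2
    have h7 := h1.ind (Sum.elim (fun _ => (⟨u, huP⟩ : P)) (fun _ => 0)) (by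
      rintro (i | i) hi
      · exfalso
        apply hi
        rw [hmax]
        exact ⟨h1.PA hϖP, fun h => hϖ h.2⟩
      · rfl) (by
      rw [Fintype.sum_sum_type, Fintype.sum_unique, Fintype.sum_unique]
      simp only [Sum.elim_inl, Sum.elim_inr, zero_mul, add_zero]
      exact h6) (Sum.inl ())
    simp only [Sum.elim_inl] at h7
    exact hu1 ((hmax _).1 h7)
  refine ⟨h1.PA, fun _ h2 => ?_, fun _ => hg, h1.reg, h1.inv, indN_unit _ fun _ => hkey⟩
  apply hkey
  have h3 : (⟨_, hg⟩ : P) = 0 := Subtype.ext h2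
  rw [h3]
  exact Ideal.zero_mem _

end

end Pool.Agent.W418.WR
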